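import Pool.Agent.Lib.MP_e519cf_lc.Family

/-! The query and the answer programs. -/

namespace Pool.Agent.Lib.MP_e519cf_lc

open Equiv Pool.Agent.Lib.helper80

abbrev NL : Type := ℕ × ℕ × ℕ × ℕ
abbrev YL : Type := ℕ × NL × ℕ × ℕ
/-- `(n, Δ, generators of N, coset representatives, local maps)` -/
abbrev Dat : Type := ℕ × List ℕ × Tabs × Tabs × Tabs

def TL (D : Dat) : ℕ := D.1 * (D.1 + (D.1 + D.2.2.2.1.length * D.2.2.2.2.length)) + 1

def xsL (D : Dat) : List NL :=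
  ((List.range D.1).map fun z => (0, 0, 0, z)) ++ (((List.range D.1).map fun z => (1, 0, 0, z)) ++
    (List.range D.2.2.2.1.length).flatMap fun i =>
      (List.range D.2.2.2.2.length).map fun k => (2, i, k, 0))

def esL (D : Dat) : List NL :=
  xsL D ++ (((List.range D.1).map fun z => (3, 0, 0, z)) ++
    (((List.range D.2.2.2.1.length).map fun i => (4, i, 0, 0)) ++
      (List.range D.2.2.2.1.length).flatMap fun i => (List.range D.2.2.2.2.length).flatMap fun k =>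
        (List.range D.1).map fun z => (5, i, k, z)))

def ysL (D : Dat) : List YL := dedupB
  (((xsL D).flatMap fun x => (List.range D.1).flatMap fun z =>
      (List.range 2).map fun j => (0, x, z, j)) ++
    (((xsL D).flatMap fun x => (List.range D.1).flatMap fun z =>
      (List.range (32 * TL D)).map fun j => (1, x, z, j)) ++
    (esL D).flatMap fun e => (List.range (32 * TL D)).flatMap fun z =>
      (List.range 2).map fun j => (2, e, z, j)))

def nu (D : Dat) (k z : ℕ) : ℕ := (D.2.2.2.2.getD k []).getD z D.1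

def domB (D : Dat) (k z : ℕ) : Bool := Nat.blt (nu D k z) D.1

def incL (D : Dat) (e x : NL) : Bool :=
  bif Nat.ble e.1 2 then eqb x e
  else bif eqb e.1 3 then eqb x (0, 0, 0, e.2.2.2) || eqb x (1, 0, 0, e.2.2.2)
  else bif eqb e.1 4 then eqb x.1 2 && eqb x.2.1 e.2.1
  else eqb x (2, e.2.1, e.2.2.1, 0) || (eqb x (0, 0, 0, e.2.2.2) || (domB D e.2.2.1 e.2.2.2 &&
    eqb x (1, 0, 0, app (D.2.2.2.1.getD e.2.1 []) (nu D e.2.2.1 e.2.2.2))))

def colL (D : Dat) (e : NL) : ℕ :=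
  bif eqb e.1 0 then (bif D.2.1.any (fun z => eqb z e.2.2.2) then 0 else 1)
  else bif eqb e.1 1 then 2 else bif eqb e.1 2 then 3 else bif eqb e.1 3 then 4
  else bif eqb e.1 4 then 5 else bif domB D e.2.2.1 e.2.2.2 then 6 else 7

def rowF (D : Dat) (e : NL) (y : YL) : YL :=
  bif (eqb y.1 0 && incL D e y.2.1) ||
    (eqb y.1 2 && (eqb y.2.1 e && Nat.blt y.2.2.1 ((8 + colL D e) * TL D)))
  then (y.1, y.2.1, y.2.2.1, 1 - y.2.2.2) else y

def onB (D : Dat) (i : ℕ) (y : YL) : Bool :=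
  Nat.ble y.1 1 && (eqb y.2.1.1 2 && (eqb y.2.1.2.1 i && domB D y.2.1.2.2.1 y.2.2.1))

def hatF (D : Dat) (i : ℕ) (m : List ℕ) (y : YL) : YL :=
  bif onB D i y then (y.1, y.2.1, app m y.2.2.1, y.2.2.2) else y

def ttF (D : Dat) (i : ℕ) (y : YL) : YL :=
  bif onB D i y then (y.1, y.2.1, nu D y.2.1.2.2.1 y.2.2.1, y.2.2.2) else y

def gensL (D : Dat) : Tabs :=
  ((esL D).map fun e => (ysL D).map fun y => idx (rowF D e y) (ysL D)) ++
    (((List.range D.2.2.2.1.length).flatMap fun i => D.2.2.1.map fun m =>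
      (ysL D).map fun y => idx (hatF D i m y) (ysL D)) ++
    (List.range D.2.2.2.1.length).map fun i => (ysL D).map fun y => idx (ttF D i y) (ysL D))

def readL (D : Dat) (ω : List ℕ) : List ℕ :=
  (List.range D.1).map fun x =>
    ((ysL D).getD (app ω (idx (0, (0, 0, 0, x), x, 0) (ysL D))) (0, (0, 0, 0, 0), 0, 0)).2.1.2.2.2

def datOf (d : ℕ) (I : Inp) : Dat :=
  (I.1, I.2.2.2.2, stabL I.1 I.2.2.1 I.2.2.2.1, liftsL d I.1 I.2.2.1 I.2.2.2.1,
    usL I.1 I.2.1 (stabL I.1 I.2.2.1 I.2.2.2.1))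

def queryL (d : ℕ) (I : Inp) : ℕ × Tabs := ((ysL (datOf d I)).length, gensL (datOf d I))

def answerL (d : ℕ) (p : Inp × Tabs) : Tabs :=
  interL p.1.1 (p.2.map fun ω => readL (datOf d p.1) ω) p.1.2.2.1

section
variable {α : Type} [Enc α]

@[fun_prop] theorem pt_TL {D : α → Dat} (h : PT D) : PT (fun a => TL (D a)) := by
  unfold TL; fun_prop
@[fun_prop] theorem pt_xsL {D : α → Dat} (h : PT D) : PT (fun a => xsL (D a)) := by
  unfold xsL; fun_prop
@[fun_prop] theorem pt_esL {D : α → Dat} (h : PT D) : PT (fun a => esL (D a)) := by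
  unfold esL; fun_prop
@[fun_prop] theorem pt_ysL {D : α → Dat} (h : PT D) : PT (fun a => ysL (D a)) := by
  unfold ysL; fun_prop
@[fun_prop] theorem pt_nu {D : α → Dat} {k z : α → ℕ} (h : PT D) (hk : PT k) (hz : PT z) :
    PT (fun a => nu (D a) (k a) (z a)) := by unfold nu; fun_prop
@[fun_prop] theorem pt_domB {D : α → Dat} {k z : α → ℕ} (h : PT D) (hk : PT k) (hz : PT z) :
    PT (fun a => domB (D a) (k a) (z a)) := by unfold domB; fun_prop
@[fun_prop] theorem pt_incL {D : α → Dat} {e x : α → NL} (h : PT D) (he : PT e) (hx : PT x) :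
    PT (fun a => incL (D a) (e a) (x a)) := by unfold incL; fun_prop
@[fun_prop] theorem pt_colL {D : α → Dat} {e : α → NL} (h : PT D) (he : PT e) :
    PT (fun a => colL (D a) (e a)) := by unfold colL; fun_prop
@[fun_prop] theorem pt_rowF {D : α → Dat} {e : α → NL} {y : α → YL} (h : PT D) (he : PT e)
    (hy : PT y) : PT (fun a => rowF (D a) (e a) (y a)) := by unfold rowF; fun_prop
@[fun_prop] theorem pt_onB {D : α → Dat} {i : α → ℕ} {y : α → YL} (h : PT D) (he : PT i)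
    (hy : PT y) : PT (fun a => onB (D a) (i a) (y a)) := by unfold onB; fun_prop
@[fun_prop] theorem pt_hatF {D : α → Dat} {i : α → ℕ} {m : α → List ℕ} {y : α → YL} (h : PT D)
    (he : PT i) (hm : PT m) (hy : PT y) : PT (fun a => hatF (D a) (i a) (m a) (y a)) := by
  unfold hatF; fun_prop
@[fun_prop] theorem pt_ttF {D : α → Dat} {i : α → ℕ} {y : α → YL} (h : PT D) (he : PT i)
    (hy : PT y) : PT (fun a => ttF (D a) (i a) (y a)) := by unfold ttF; fun_prop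
@[fun_prop] theorem pt_gensL {D : α → Dat} (h : PT D) : PT (fun a => gensL (D a)) := by
  unfold gensL; fun_prop
@[fun_prop] theorem pt_readL {D : α → Dat} {ω : α → List ℕ} (h : PT D) (hω : PT ω) :
    PT (fun a => readL (D a) (ω a)) := by unfold readL; fun_prop
@[fun_prop] theorem pt_datOf (d : ℕ) {I : α → Inp} (h : PT I) : PT (fun a => datOf d (I a)) := by
  unfold datOf; fun_prop

end

theorem pt_queryL (d : ℕ) : PT (queryL d) := by unfold queryL; fun_prop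
theorem pt_answerL (d : ℕ) : PT (answerL d) := by unfold answerL; fun_prop

section
variable {n a b : ℕ}

def xl : Nd (Fin n) (Fin a) (Fin b) → NL
  | .inl z => (0, 0, 0, z)
  | .inr (.inl z) => (1, 0, 0, z)
  | .inr (.inr (i, k)) => (2, i, k, 0)

def el : Rw (Fin n) (Fin a) (Fin b) → NL
  | .inl x => xl x
  | .inr (.inl z) => (3, 0, 0, z)
  | .inr (.inr (.inl i)) => (4, i, 0, 0)
  | .inr (.inr (.inr ((i, k), z))) => (5, i, k, z)

def lab {B : ℕ} : Pt (Nd (Fin n) (Fin a) (Fin b)) (Rw (Fin n) (Fin a) (Fin b)) (Fin n) B → YL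
  | .inl (x, z, ε) => (0, xl x, z, ε.val)
  | .inr (.inl (x, z, j)) => (1, xl x, z, j)
  | .inr (.inr (e, j, ε)) => (2, el e, j, ε.val)

theorem el_inj : Function.Injective (el : Rw (Fin n) (Fin a) (Fin b) → NL) := by
  rintro ((z | z | ⟨i, k⟩) | z | i | ⟨⟨i, k⟩, z⟩) ((z' | z' | ⟨i', k'⟩) | z' | i' | ⟨⟨i', k'⟩, z'⟩) <;>
    simp [el, xl, Fin.val_inj, and_assoc]

theorem xl_inj : Function.Injective (xl : Nd (Fin n) (Fin a) (Fin b) → NL) := fun x y h =>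
  Sum.inl_injective (el_inj (a₁ := .inl x) (a₂ := .inl y) h)

theorem lab_inj {B : ℕ} : Function.Injective (lab (n := n) (a := a) (b := b) (B := B)) := by
  rintro (⟨x, z, ε⟩ | ⟨x, z, j⟩ | ⟨e, j, ε⟩) (⟨x', z', ε'⟩ | ⟨x', z', j'⟩ | ⟨e', j', ε'⟩) <;>
    simp [lab, xl_inj.eq_iff, el_inj.eq_iff, Fin.val_inj, (ZMod.val_injective 2).eq_iff]

theorem mem_xsL {D : Dat} (l : NL) :
    l ∈ xsL D ↔ ∃ x : Nd (Fin D.1) (Fin D.2.2.2.1.length) (Fin D.2.2.2.2.length), xl x = l := by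
  simp only [xsL, List.mem_append, List.mem_map, List.mem_range, List.mem_flatMap, Sum.exists,
    Prod.exists, xl, Fin.exists_iff, exists_prop]

theorem mem_esL {D : Dat} (l : NL) :
    l ∈ esL D ↔ ∃ e : Rw (Fin D.1) (Fin D.2.2.2.1.length) (Fin D.2.2.2.2.length), el e = l := by
  simp only [esL, List.mem_append, mem_xsL, List.mem_map, List.mem_range, List.mem_flatMap]
  constructor
  · rintro (⟨x, rfl⟩ | ⟨z, hz, rfl⟩ | ⟨i, hi, rfl⟩ | ⟨i, hi, k, hk, z, hz, rfl⟩)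
    · exact ⟨.inl x, rfl⟩
    · exact ⟨.inr (.inl ⟨z, hz⟩), rfl⟩
    · exact ⟨.inr (.inr (.inl ⟨i, hi⟩)), rfl⟩
    · exact ⟨.inr (.inr (.inr ((⟨i, hi⟩, ⟨k, hk⟩), ⟨z, hz⟩))), rfl⟩
  · rintro ⟨x | z | i | ⟨⟨i, k⟩, z⟩, rfl⟩
    · exact Or.inl ⟨x, rfl⟩
    · exact Or.inr (Or.inl ⟨z, z.2, rfl⟩)
    · exact Or.inr (Or.inr (Or.inl ⟨i, i.2, rfl⟩))
    · exact Or.inr (Or.inr (Or.inr ⟨i, i.2, k, k.2, z, z.2, rfl⟩))

theorem mem_ysL {D : Dat} (l : YL) :
    l ∈ ysL D ↔ ∃ y : Pt (Nd (Fin D.1) (Fin D.2.2.2.1.length) (Fin D.2.2.2.2.length))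
      (Rw (Fin D.1) (Fin D.2.2.2.1.length) (Fin D.2.2.2.2.length)) (Fin D.1) (32 * TL D),
        lab y = l := by
  have h2 : ∀ j, j < 2 → ∃ ε : ZMod 2, ε.val = j := fun j hj => ⟨j, ZMod.val_cast_of_lt hj⟩
  simp only [ysL, mem_dedupB, List.mem_append, mem_xsL, mem_esL, List.mem_map, List.mem_range,
    List.mem_flatMap]
  constructor
  · rintro (⟨_, ⟨x, rfl⟩, z, hz, j, hj, rfl⟩ | ⟨_, ⟨x, rfl⟩, z, hz, j, hj, rfl⟩ |
      ⟨_, ⟨x, rfl⟩, z, hz, j, hj, rfl⟩)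
    · obtain ⟨ε, rfl⟩ := h2 j hj
      exact ⟨.inl (x, ⟨z, hz⟩, ε), rfl⟩
    · exact ⟨.inr (.inl (x, ⟨z, hz⟩, ⟨j, hj⟩)), rfl⟩
    · obtain ⟨ε, rfl⟩ := h2 j hj
      exact ⟨.inr (.inr (x, ⟨z, hz⟩, ε)), rfl⟩
  · rintro ⟨⟨x, z, ε⟩ | ⟨x, z, j⟩ | ⟨e, j, ε⟩, rfl⟩
    · exact Or.inl ⟨_, ⟨x, rfl⟩, z, z.2, _, ε.val_lt, rfl⟩
    · exact Or.inr (Or.inl ⟨_, ⟨x, rfl⟩, z, z.2, j, j.2, rfl⟩)
    · exact Or.inr (Or.inr ⟨_, ⟨e, rfl⟩, j, j.2, _, ε.val_lt, rfl⟩)

end

theorem exists_num {Y L : Type} [DecidableEq L] {lab : Y → L} (hl : Function.Injective lab)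
    {ys : List L} (hn : ys.Nodup) (hm : ∀ l, l ∈ ys ↔ ∃ y, lab y = l) :
    ∃ e : Y ≃ Fin ys.length, (∀ y, idx (lab y) ys = e y) ∧ (∀ y d, ys.getD (e y) d = lab y) ∧
      ∀ (ψ : Perm Y) (f : L → L), (∀ y, f (lab y) = lab (ψ y)) →
        (ys.map fun y => idx (f y) ys) = tab (e.permCongr ψ) := by
  have h1 : ∀ y, ∃ i : Fin ys.length, ys[i.1] = lab y := by
    intro y
    obtain ⟨i, hi, e⟩ := List.getElem_of_mem ((hm _).2 ⟨y, rfl⟩)
    exact ⟨⟨i, hi⟩, e⟩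
  choose φ hφ using h1
  have hb : Function.Bijective φ := by
    constructor
    · intro y y' h
      apply hl
      rw [← hφ, ← hφ]; simp only [h]
    · intro i
      obtain ⟨y, hy⟩ := (hm _).1 (List.getElem_mem i.2)
      exact ⟨y, Fin.ext ((List.Nodup.getElem_inj_iff hn).1 ((hφ y).trans hy))⟩
  have h2 : ∀ y, idx (lab y) ys = φ y := fun y => by rw [← hφ, idx_getElem hn]
  refine ⟨Equiv.ofBijective φ hb, h2, fun y d => ?_, fun ψ f hf => ?_⟩
  · rw [List.getD_eq_getElem _ _ (Fin.is_lt _)]; exact hφ y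
  · apply List.ext_getElem (by simp)
    intro i h3 h4
    obtain ⟨y, hy⟩ := hb.2 ⟨i, by simpa using h3⟩
    have : i = φ y := by rw [hy]
    subst this
    simp only [List.getElem_map, hφ, hf, h2, tab, List.getElem_ofFn, Fin.eta, permCongr_apply]
    rw [show (Equiv.ofBijective φ hb).symm (φ y) = y from (Equiv.ofBijective φ hb).symm_apply_apply y]
    rfl

end Pool.Agent.Lib.MP_e519cf_lc
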