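import Pool.Agent.Lib.MP_e519cf_lc.Gadget

/-! The gadget applied to a family of cosets `g i * N` of a normal subgroup `N`. -/

namespace Pool.Agent.Lib.MP_e519cf_lc

open Equiv Classical

section
variable {Z : Type}

def orb (N : Subgroup (Perm Z)) (x : Z) : Set Z := {y | ∃ m ∈ N, m x = y}

theorem self_mem_orb (N : Subgroup (Perm Z)) (x : Z) : x ∈ orb N x := ⟨1, N.one_mem, rfl⟩

theorem orb_eq {N : Subgroup (Perm Z)} {x y : Z} (h : y ∈ orb N x) : orb N y = orb N x := by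
  obtain ⟨m, hm, rfl⟩ := h
  ext z
  constructor
  · rintro ⟨m', hm', rfl⟩; exact ⟨m' * m, N.mul_mem hm' hm, rfl⟩
  · rintro ⟨m', hm', rfl⟩; exact ⟨m' * m⁻¹, N.mul_mem hm' (N.inv_mem hm), by simp⟩

/-- Permutations preserving every orbit of `N`. -/
def OP (N : Subgroup (Perm Z)) : Subgroup (Perm Z) where
  carrier := {p | ∀ x, p x ∈ orb N x}
  one_mem' := self_mem_orb N
  mul_mem' := fun {a b} ha hb x => by
    have := ha (b x)
    rwa [orb_eq (hb x)] at this
  inv_mem' := fun {a} ha x => by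
    have := ha (a⁻¹ x)
    rw [ais] at this
    rw [orb_eq this]; exact self_mem_orb _ _

theorem le_OP (N : Subgroup (Perm Z)) : N ≤ OP N := fun m hm _ => ⟨m, hm, rfl⟩

theorem OP_inv {N : Subgroup (Perm Z)} {p : Perm Z} (hp : p ∈ OP N) (x y : Z) :
    p y ∈ orb N x ↔ y ∈ orb N x := by
  constructor
  · intro h
    rw [← orb_eq h, orb_eq (hp y)]; exact self_mem_orb _ _
  · intro h
    rw [← orb_eq h]; exact hp y

noncomputable def res (β : Set Z) (p : Perm Z) : Perm Z :=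
  if h : ∀ x, p x ∈ β ↔ x ∈ β then Perm.ofSubtype (p.subtypePerm h) else 1

theorem res_mem {β : Set Z} {p : Perm Z} (h : ∀ x, p x ∈ β ↔ x ∈ β) {x : Z} (hx : x ∈ β) :
    res β p x = p x := by
  rw [res, dif_pos h, Perm.ofSubtype_apply_of_mem _ hx]; rfl

theorem res_not {β : Set Z} (p : Perm Z) {x : Z} (hx : x ∉ β) : res β p x = x := by
  unfold res
  split_ifs with h
  · exact Perm.ofSubtype_apply_of_not_mem _ hx
  · rfl

theorem res_eq_of {β : Set Z} {p q : Perm Z} (hq : ∀ x, x ∉ β → q x = x)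
    (h : ∀ x ∈ β, q x = p x) : q = res β p := by
  have hq' : ∀ x, q x ∈ β ↔ x ∈ β := by
    intro x
    constructor
    · intro hx; by_contra hn; rw [hq x hn] at hx; exact hn hx
    · intro hx
      by_contra hn
      have := q.injective (hq _ hn)
      rw [this] at hn; exact hn hx
  by_cases hp : ∀ x, p x ∈ β ↔ x ∈ β
  · ext x
    by_cases hx : x ∈ β
    · rw [res_mem hp hx, h x hx]
    · rw [res_not _ hx, hq x hx]
  · exfalso
    refine hp fun x => ⟨fun hx => ?_, fun hx => ?_⟩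
    · have h1 : q⁻¹ (p x) ∈ β := by rw [← hq', ais]; exact hx
      have h2 := h _ h1
      rw [ais] at h2
      rw [p.injective h2]; exact h1
    · rw [← h x hx, hq']; exact hx

noncomputable def resH (N : Subgroup (Perm Z)) (x : Z) : OP N →* Perm Z where
  toFun p := res (orb N x) p
  map_one' := (res_eq_of (fun _ _ => rfl) (fun _ _ => rfl)).symm
  map_mul' a b := by
    symm
    refine res_eq_of (fun y hy => ?_) (fun y hy => ?_)
    · rw [Perm.mul_apply, res_not _ hy, res_not _ hy]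
    · rw [Perm.mul_apply, res_mem (OP_inv b.2 x) hy,
        res_mem (OP_inv a.2 x) ((OP_inv b.2 x y).2 hy)]
      rfl

end

abbrev Nd (Z A K : Type) : Type := Z ⊕ Z ⊕ (A × K)
abbrev Rw (Z A K : Type) : Type := Nd Z A K ⊕ Z ⊕ A ⊕ ((A × K) × Z)

section
variable {Z A K : Type} (N G : Subgroup (Perm Z)) (g : A → Perm Z) (dom : K → Set Z)
  (mu : K → Perm Z) (Δ : Set Z)

structure Good : Prop where
  le : N ≤ G
  norm : ∀ γ ∈ G, ∀ m ∈ N, γ * m * γ⁻¹ ∈ N
  gmem : ∀ i, g i ∈ G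
  a1 : ∀ i j, (g i)⁻¹ * g j ∈ N → i = j
  a2 : ∀ γ ∈ G, ∀ i, ∃ j, (g j)⁻¹ * (γ * g i * γ⁻¹) ∈ N
  a3 : G ≤ Subgroup.closure {p | ∃ i, ∃ m ∈ N, p = g i * m}
  b1 : ∀ k, ∃ x, ∃ m ∈ N, dom k = orb N x ∧ mu k = res (orb N x) m
  b2 : ∀ x, ∀ m ∈ N, ∃ k, dom k = orb N x ∧ mu k = res (orb N x) m
  b3 : ∀ k k', dom k = dom k' → mu k = mu k' → k = k'

def incR : Rw Z A K → Nd Z A K → Prop
  | .inl x0, x => x = x0
  | .inr (.inl z), x => x = .inl z ∨ x = .inr (.inl z)
  | .inr (.inr (.inl i)), x => ∃ k, x = .inr (.inr (i, k))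
  | .inr (.inr (.inr (u, z))), x =>
      x = .inr (.inr u) ∨ x = .inl z ∨ (z ∈ dom u.2 ∧ x = .inr (.inl (g u.1 (mu u.2 z))))

noncomputable def colR : Rw Z A K → ℕ
  | .inl (.inl z) => if z ∈ Δ then 0 else 1
  | .inl (.inr (.inl _)) => 2
  | .inl (.inr (.inr _)) => 3
  | .inr (.inl _) => 4
  | .inr (.inr (.inl _)) => 5
  | .inr (.inr (.inr (u, z))) => if z ∈ dom u.2 then 6 else 7

theorem colR_lt (e : Rw Z A K) : colR dom Δ e < 8 := by
  rcases e with (z | z | u) | z | i | ⟨u, z⟩ <;> simp only [colR] <;> (try split_ifs) <;> omega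

noncomputable def hat (i : A) (m : Perm Z) : Nd Z A K → Perm Z
  | .inr (.inr (i', k)) => if i' = i then res (dom k) m else 1
  | _ => 1

noncomputable def tt (i : A) : Nd Z A K → Perm Z
  | .inr (.inr (i', k)) => if i' = i then mu k else 1
  | _ => 1

def gensH (sN : Set (Perm Z)) : Set (Nd Z A K → Perm Z) :=
  {h | ∃ i, ∃ m ∈ sN, h = hat dom i m} ∪ Set.range (tt mu)

variable {N G g dom mu}

theorem hat_mem (hg : Good N G g dom mu) {sN : Set (Perm Z)} (hs : Subgroup.closure sN = N)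
    (i : A) {m : Perm Z} (hm : m ∈ N) :
    hat dom i m ∈ Subgroup.closure (gensH (A := A) dom mu sN) := by
  let f : N →* (Nd Z A K → Perm Z) :=
    { toFun := fun m => hat dom i m
      map_one' := by
        funext x
        rcases x with z | z | ⟨i', k⟩ <;> simp only [hat, Pi.one_apply]
        obtain ⟨x, -, -, h, -⟩ := hg.b1 k
        rw [h]
        split_ifs
        · exact (resH N x).map_one
        · rfl
      map_mul' := fun a b => by
        funext x
        rcases x with z | z | ⟨i', k⟩ <;> simp only [hat, Pi.mul_apply, mul_one]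
        obtain ⟨x, -, -, h, -⟩ := hg.b1 k
        rw [h]
        split_ifs
        · exact (resH N x).map_mul ⟨a, le_OP N a.2⟩ ⟨b, le_OP N b.2⟩
        · simp }
  subst hs
  change f ⟨m, hm⟩ ∈ _
  induction hm using Subgroup.closure_induction with
  | mem x hx => exact Subgroup.subset_closure (Or.inl ⟨i, x, hx, rfl⟩)
  | one => exact (map_one f) ▸ one_mem _
  | mul x y hx hy h1 h2 => exact (map_mul f ⟨x, hx⟩ ⟨y, hy⟩) ▸ mul_mem h1 h2
  | inv x hx h1 => exact (map_inv f ⟨x, hx⟩) ▸ inv_mem h1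

/-- The order of `H1` restricted to a transversal describing `γ` is the order of `⟨N, γ⟩`. -/
theorem card_transversal [Finite Z] [Finite A] [Finite K] (hg : Good N G g dom mu)
    {sN : Set (Perm Z)} (hs : Subgroup.closure sN = N) (i : A) {γ : Perm Z} (hγ : γ ∈ OP N)
    (κ : Z → K) (h1 : ∀ z, dom (κ z) = orb N z) (h2 : ∀ z, mu (κ z) = res (orb N z) γ) :
    Nat.card (Subgroup.closure (gensH (A := A) dom mu sN)) =
      Nat.card (Subgroup.closure (gensH (A := A) dom mu sN) ⊓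
        Subgroup.pi (Set.range fun z => (.inr (.inr (i, κ z)) : Nd Z A K)) (fun _ => ⊥) :
          Subgroup (Nd Z A K → Perm Z)) * Nat.card (N ⊔ Subgroup.zpowers γ : Subgroup (Perm Z)) := by
  set H1 := Subgroup.closure (gensH (A := A) dom mu sN) with hH1
  let π : (Nd Z A K → Perm Z) →* (Z → Perm Z) :=
    MonoidHom.pi fun z => Pi.evalMonoidHom (fun _ => Perm Z) (.inr (.inr (i, κ z)))
  let ρ : OP N →* (Z → Perm Z) := MonoidHom.pi fun z => resH N z
  have hρ : Function.Injective ρ := by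
    rw [injective_iff_map_eq_one]
    intro p hp
    ext z
    have := congrArg (fun f : Z → Perm Z => f z z) hp
    simp only [ρ, MonoidHom.pi_apply, resH, MonoidHom.coe_mk, OneHom.coe_mk, Pi.one_apply,
      Perm.one_apply] at this
    rw [res_mem (OP_inv p.2 z) (self_mem_orb _ _)] at this
    simpa using this
  set D : Subgroup (Perm Z) := N ⊔ Subgroup.zpowers γ with hD
  have hDO : D ≤ OP N := sup_le (le_OP N) ((Subgroup.zpowers_le).2 hγ)
  have e1 : ∀ m (hm : m ∈ N), π (hat dom i m) = ρ ⟨m, le_OP N hm⟩ := by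
    intro m hm; funext z
    simp [π, ρ, hat, resH, h1]
  have e2 : π (tt mu i) = ρ ⟨γ, hγ⟩ := by
    funext z
    simp [π, ρ, tt, resH, h2]
  have hmap : H1.map π = (D.subgroupOf (OP N)).map ρ := by
    apply le_antisymm
    · rw [Subgroup.map_le_iff_le_comap, hH1, Subgroup.closure_le]
      rintro _ (⟨j, m, hm, rfl⟩ | ⟨j, rfl⟩)
      · have hm' : m ∈ N := hs ▸ Subgroup.subset_closure hm
        by_cases hj : i = j
        · subst hj
          exact ⟨⟨m, le_OP N hm'⟩, Subgroup.mem_sup_left hm', (e1 m hm').symm⟩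
        · have : π (hat dom j m) = 1 := by funext z; simp [π, hat, hj]
          simp only [Subgroup.coe_comap, Set.mem_preimage, this, SetLike.mem_coe, one_mem]
      · by_cases hj : i = j
        · subst hj
          exact ⟨⟨γ, hγ⟩, Subgroup.mem_sup_right (Subgroup.mem_zpowers γ), e2.symm⟩
        · have : π (tt mu j) = 1 := by funext z; simp [π, tt, hj]
          simp only [Subgroup.coe_comap, Set.mem_preimage, this, SetLike.mem_coe, one_mem]
    · rw [Subgroup.map_le_iff_le_comap]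
      have : D ≤ ((H1.map π).comap ρ).map (OP N).subtype := by
        refine sup_le (fun m hm => ⟨⟨m, le_OP N hm⟩, ⟨_, hat_mem hg hs i hm, e1 m hm⟩, rfl⟩) ?_
        rw [Subgroup.zpowers_le]
        exact ⟨⟨γ, hγ⟩, ⟨_, Subgroup.subset_closure (Or.inr ⟨i, rfl⟩), e2⟩, rfl⟩
      intro p hp
      obtain ⟨q, hq, e⟩ := this hp
      rwa [← Subtype.ext e]
  have hker : Subgroup.pi (Set.range fun z => (.inr (.inr (i, κ z)) : Nd Z A K)) (fun _ => ⊥) =
      π.ker := by
    ext h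
    simp [Subgroup.mem_pi, MonoidHom.mem_ker, π, funext_iff]
  rw [hker]
  have c1 : Nat.card D = Nat.card (H1.map π) := by
    rw [hmap, Subgroup.card_map_of_injective hρ]
    exact (Nat.card_congr (Subgroup.subgroupOfEquivOfLe hDO).toEquiv).symm
  rw [c1, ← Subgroup.relIndex_ker, Subgroup.relIndex, ← Subgroup.card_mul_index (π.ker.subgroupOf H1)]
  congr 1
  rw [← Subgroup.inf_subgroupOf_right, inf_comm]
  exact Nat.card_congr (Subgroup.subgroupOfEquivOfLe inf_le_left).toEquiv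

section
variable [Fintype Z] [Fintype A] [Fintype K] [DecidableEq Z] [DecidableEq A] [DecidableEq K]
  {T : ℕ}

/-- The gadget group of the data. -/
noncomputable abbrev GG (g : A → Perm Z) (dom : K → Set Z) (mu : K → Perm Z) (Δ : Set Z) (T : ℕ)
    (sN : Set (Perm Z)) : Subgroup (Perm (Pt (Nd Z A K) (Rw Z A K) Z (32 * T))) :=
  HH (incR g dom mu) (colR dom Δ) T (Subgroup.closure (gensH dom mu sN))

noncomputable abbrev RR (g : A → Perm Z) (dom : K → Set Z) (mu : K → Perm Z) (Δ : Set Z) (T : ℕ)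
    (e : Rw Z A K) : Perm (Pt (Nd Z A K) (Rw Z A K) Z (32 * T)) :=
  rw' (incR g dom mu) (colR dom Δ) T e

theorem sound (hg : Good N G g dom mu) {sN : Set (Perm Z)} (hs : Subgroup.closure sN = N)
    (hT : Fintype.card Z * Fintype.card (Nd Z A K) < T)
    {ω : Perm (Pt (Nd Z A K) (Rw Z A K) Z (32 * T))}
    (hω : ω ∈ Subgroup.normalizer (GG g dom mu Δ T sN : Set _)) :
    ∃ τ : Perm Z, (∀ z, ω * RR g dom mu Δ T (.inl (.inl z)) * ω⁻¹ =
        RR g dom mu Δ T (.inl (.inl (τ z)))) ∧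
      τ ∈ Subgroup.normalizer (G : Set (Perm Z)) ∧ ∀ z, τ z ∈ Δ ↔ z ∈ Δ := by
  rcases isEmpty_or_nonempty Z with hZ | hZ
  · exact ⟨1, fun z => isEmptyElim z, one_mem _, fun z => isEmptyElim z⟩
  have hT0 : 0 < T := by omega
  choose θ hθ hcol using fun e => exists_theta (incR g dom mu) _ (colR_lt dom Δ) hT hω e
  have θinj : Function.Injective θ := by
    intro e e' h
    have := (hθ e).trans (h ▸ (hθ e').symm)
    exact row_inj (incR g dom mu) hT0 (mul_left_cancel (mul_right_cancel this))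
  have s1 : ∀ z, ∃ z', θ (.inl (.inl z)) = .inl (.inl z') ∧ (z' ∈ Δ ↔ z ∈ Δ) := by
    intro z
    have := hcol (.inl (.inl z))
    generalize θ (.inl (.inl z)) = e at this
    rcases e with (z' | z' | u) | z' | i | ⟨u, z'⟩ <;> simp only [colR] at this <;>
      split_ifs at this <;> simp_all
  have s2 : ∀ z, ∃ z', θ (.inl (.inr (.inl z))) = .inl (.inr (.inl z')) := by
    intro z
    have := hcol (.inl (.inr (.inl z)))
    generalize θ (.inl (.inr (.inl z))) = e at this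
    rcases e with (z' | z' | u) | z' | i | ⟨u, z'⟩ <;> simp only [colR] at this <;>
      (try split_ifs at this) <;> simp_all
  have s3 : ∀ u, ∃ u', θ (.inl (.inr (.inr u))) = .inl (.inr (.inr u')) := by
    intro z
    have := hcol (.inl (.inr (.inr z)))
    generalize θ (.inl (.inr (.inr z))) = e at this
    rcases e with (z' | z' | u) | z' | i | ⟨u, z'⟩ <;> simp only [colR] at this <;>
      (try split_ifs at this) <;> simp_all
  have s4 : ∀ z, ∃ z', θ (.inr (.inl z)) = .inr (.inl z') := by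
    intro z
    have := hcol (.inr (.inl z))
    generalize θ (.inr (.inl z)) = e at this
    rcases e with (z' | z' | u) | z' | i | ⟨u, z'⟩ <;> simp only [colR] at this <;>
      (try split_ifs at this) <;> simp_all
  have s5 : ∀ i, ∃ i', θ (.inr (.inr (.inl i))) = .inr (.inr (.inl i')) := by
    intro z
    have := hcol (.inr (.inr (.inl z)))
    generalize θ (.inr (.inr (.inl z))) = e at this
    rcases e with (z' | z' | u) | z' | i | ⟨u, z'⟩ <;> simp only [colR] at this <;>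
      (try split_ifs at this) <;> simp_all
  have s6 : ∀ u z, ∃ u' z', θ (.inr (.inr (.inr (u, z)))) = .inr (.inr (.inr (u', z'))) ∧
      (z' ∈ dom u'.2 ↔ z ∈ dom u.2) := by
    intro u z
    have := hcol (.inr (.inr (.inr (u, z))))
    generalize θ (.inr (.inr (.inr (u, z)))) = e at this
    rcases e with (z' | z' | u') | z' | i | ⟨u', z'⟩ <;> simp only [colR] at this <;>
      split_ifs at this <;> simp_all
  choose τ0 hτ0 hΔ using s1
  choose τ1 hτ1 using s2
  choose ψ hψ using s3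
  let σ : Nd Z A K → Nd Z A K := Sum.map τ0 (Sum.map τ1 ψ)
  have hσ : ∀ x, θ (.inl x) = .inl (σ x) := by
    rintro (z | z | u)
    · exact hτ0 z
    · exact hτ1 z
    · exact hψ u
  have hinc : ∀ e x, incR g dom mu (θ e) (σ x) ↔ incR g dom mu e x := fun e x =>
    inc_conj (incR g dom mu) (s := .inl x) (s' := .inl (σ x)) (fun _ => Iff.rfl) (fun _ => Iff.rfl)
      (hθ e) (hσ x ▸ hθ (.inl x))
  have τinj : Function.Injective τ0 := by
    intro z z' h
    have := θinj ((hτ0 z).trans (h ▸ (hτ0 z').symm))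
    simpa using this
  let τ : Perm Z := Equiv.ofBijective τ0 (Finite.injective_iff_bijective.1 τinj)
  have hτ : ∀ z, τ z = τ0 z := fun _ => rfl
  have e01 : ∀ z, τ1 z = τ0 z := by
    intro z
    obtain ⟨z', h⟩ := s4 z
    have h1 := (hinc (.inr (.inl z)) (.inl z)).2 (Or.inl rfl)
    have h2 := (hinc (.inr (.inl z)) (.inr (.inl z))).2 (Or.inr rfl)
    rw [h] at h1 h2
    simp [incR, σ] at h1 h2
    rw [h1, h2]
  have tri : ∀ u z, (τ0 z ∈ dom (ψ u).2 ↔ z ∈ dom u.2) ∧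
      (z ∈ dom u.2 → g (ψ u).1 (mu (ψ u).2 (τ0 z)) = τ0 (g u.1 (mu u.2 z))) := by
    intro u z
    obtain ⟨u', z', h, hd⟩ := s6 u z
    have h1 := (hinc (.inr (.inr (.inr (u, z)))) (.inr (.inr u))).2 (Or.inl rfl)
    have h2 := (hinc (.inr (.inr (.inr (u, z)))) (.inl z)).2 (Or.inr (Or.inl rfl))
    rw [h] at h1 h2
    simp [incR, σ] at h1 h2
    subst h1 h2
    refine ⟨hd, fun hz => ?_⟩
    have h3 := (hinc (.inr (.inr (.inr (u, z)))) (.inr (.inl (g u.1 (mu u.2 z))))).2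
      (Or.inr (Or.inr ⟨hz, rfl⟩))
    rw [h] at h3
    simp [incR, σ, e01] at h3
    exact h3.2.symm
  refine ⟨τ, fun z => hτ0 z ▸ hθ _, ?_, hΔ⟩
  have key : ∀ i, ∀ m ∈ N, τ * (g i * m) * τ⁻¹ ∈ G := by
    intro i m hm
    obtain ⟨i', hi'⟩ := s5 i
    have hψ1 : ∀ k, (ψ (i, k)).1 = i' := by
      intro k
      have h1 := (hinc (.inr (.inr (.inl i))) (.inr (.inr (i, k)))).2 ⟨k, rfl⟩
      rw [hi'] at h1
      obtain ⟨k', h1⟩ := h1
      simp [σ] at h1
      rw [h1]
    choose κ hκ1 hκ2 using fun z => hg.b2 z m hm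
    set γ : Perm Z := (g i')⁻¹ * (τ * (g i * m) * τ⁻¹) with hγ
    let κ' : Z → K := fun z => (ψ (i, κ (τ⁻¹ z))).2
    have hd : ∀ z y, y ∈ dom (κ' z) ↔ τ⁻¹ y ∈ orb N (τ⁻¹ z) := by
      intro z y
      rw [← hκ1, ← (tri (i, κ (τ⁻¹ z)) (τ⁻¹ y)).1, ← hτ, ais]
    have hd1 : ∀ z, dom (κ' z) = orb N z := by
      intro z
      obtain ⟨x, -, -, h, -⟩ := hg.b1 (κ' z)
      have := (hd z z).2 (self_mem_orb _ _)
      rw [h] at this ⊢
      exact (orb_eq this).symm
    have hv : ∀ z, ∀ y ∈ orb N z, mu (κ' z) y = γ y := by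
      intro z y hy
      rw [← hd1, hd] at hy
      have := (tri (i, κ (τ⁻¹ z)) (τ⁻¹ y)).2 (by rw [hκ1]; exact hy)
      rw [hψ1, ← hτ, ← hτ, ais, hκ2, res_mem (OP_inv (le_OP N hm) _) hy] at this
      rw [hγ]
      simp only [Perm.mul_apply]
      rw [← this, ias]
    have hmuO : ∀ z, ∀ y, y ∉ orb N z → mu (κ' z) y = y := by
      intro z y hy
      obtain ⟨x, m', -, h, h'⟩ := hg.b1 (κ' z)
      rw [h', res_not _ (by rwa [← h, hd1])]
    have hγO : γ ∈ OP N := by
      intro z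
      obtain ⟨x, m', hm', h, h'⟩ := hg.b1 (κ' z)
      rw [← hv z z (self_mem_orb _ _), h']
      rw [hd1] at h
      rw [← h, res_mem (OP_inv (le_OP N hm') _) (self_mem_orb _ _)]
      exact ⟨m', hm', rfl⟩
    have c1 := card_transversal hg hs i (le_OP N hm) κ hκ1 hκ2
    have c2 := card_transversal hg hs i' hγO κ' hd1 fun z => res_eq_of (hmuO z) (hv z)
    have c3 := card_ker_conj (incR g dom mu) _ hT0 (sing := Sum.inl) (fun _ _ => Iff.rfl) hω
      (σ := σ) (fun x => hσ x ▸ hθ (.inl x))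
      (Set.range fun z => (.inr (.inr (i, κ z)) : Nd Z A K))
    have e3 : σ '' (Set.range fun z => (.inr (.inr (i, κ z)) : Nd Z A K)) =
        Set.range fun z => (.inr (.inr (i', κ' z)) : Nd Z A K) := by
      rw [← Set.range_comp, ← (Equiv.surjective τ⁻¹).range_comp]
      congr 1
      funext z
      simp only [σ, κ', Function.comp, Sum.map_inr, ← hψ1 (κ (τ⁻¹ z))]
    rw [e3] at c3
    rw [c1, c3] at c2
    have c4 := Nat.eq_of_mul_eq_mul_left Nat.card_pos c2
    rw [sup_eq_left.2 ((Subgroup.zpowers_le).2 hm)] at c4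
    have c5 : N = N ⊔ Subgroup.zpowers γ := Subgroup.eq_of_le_of_card_ge le_sup_left c4.ge
    have hγN : γ ∈ N := by rw [c5]; exact Subgroup.mem_sup_right (Subgroup.mem_zpowers γ)
    have : τ * (g i * m) * τ⁻¹ = g i' * γ := by rw [hγ]; group
    rw [this]
    exact G.mul_mem (hg.gmem i') (hg.le hγN)
  refine Subgroup.mem_normalizer_fintype fun p hp => ?_
  have hp' := hg.a3 hp
  clear hp
  induction hp' using Subgroup.closure_induction with
  | mem x hx => obtain ⟨i, m, hm, rfl⟩ := hx; exact key i m hm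
  | one => simp
  | mul x y _ _ hx hy =>
    have : τ * (x * y) * τ⁻¹ = (τ * x * τ⁻¹) * (τ * y * τ⁻¹) := by group
    rw [this]; exact G.mul_mem hx hy
  | inv x _ hx =>
    have : τ * x⁻¹ * τ⁻¹ = (τ * x * τ⁻¹)⁻¹ := by group
    rw [this]; exact G.inv_mem hx

omit [Fintype Z] [Fintype A] [Fintype K] [DecidableEq Z] [DecidableEq A] [DecidableEq K] in
theorem orb_conj (hg : Good N G g dom mu) {γ : Perm Z} (hγ : γ ∈ G) (x y : Z) :
    γ y ∈ orb N (γ x) ↔ y ∈ orb N x := by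
  constructor
  · rintro ⟨m, hm, h⟩
    refine ⟨γ⁻¹ * m * γ⁻¹⁻¹, hg.norm _ (G.inv_mem hγ) m hm, ?_⟩
    simp [h]
  · rintro ⟨m, hm, rfl⟩
    exact ⟨γ * m * γ⁻¹, hg.norm _ hγ m hm, by simp⟩

theorem complete (hg : Good N G g dom mu) {sN : Set (Perm Z)} (hs : Subgroup.closure sN = N)
    {γ : Perm Z} (hγ : γ ∈ G) (hΔ : ∀ z, γ z ∈ Δ ↔ z ∈ Δ) :
    ∃ ω ∈ Subgroup.normalizer (GG g dom mu Δ T sN : Set _),
      ∀ z, ω * RR g dom mu Δ T (.inl (.inl z)) * ω⁻¹ = RR g dom mu Δ T (.inl (.inl (γ z))) := by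
  choose φ0 hφ0 using hg.a2 γ hγ
  let nn : A → Perm Z := fun i => (g (φ0 i))⁻¹ * (γ * g i * γ⁻¹)
  have φinj : Function.Injective φ0 := by
    intro i j h
    apply hg.a1
    have h1 := N.mul_mem (N.inv_mem (hφ0 i)) (hφ0 j)
    have h2 := hg.norm _ (G.inv_mem hγ) _ h1
    rw [h] at h2
    have e : (g i)⁻¹ * g j = γ⁻¹ * (((g (φ0 j))⁻¹ * (γ * g i * γ⁻¹))⁻¹ *
      ((g (φ0 j))⁻¹ * (γ * g j * γ⁻¹))) * γ⁻¹⁻¹ := by group
    rw [e]; exact h2
  have hres : ∀ k k', (∀ y, γ y ∈ dom k' ↔ y ∈ dom k) → ∀ m ∈ N,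
      γ * res (dom k) m * γ⁻¹ = res (dom k') (γ * m * γ⁻¹) := by
    intro k k' h m hm
    obtain ⟨x, -, -, hx, -⟩ := hg.b1 k
    refine res_eq_of (fun y hy => ?_) (fun y hy => ?_)
    · rw [Perm.mul_apply, Perm.mul_apply, res_not _ (by rwa [← h, ais]), ais]
    · simp only [Perm.mul_apply]
      rw [res_mem (hx ▸ OP_inv (le_OP N hm) x) (by rwa [← h, ais])]
  have hex : ∀ u : A × K, ∃ k', (∀ y, γ y ∈ dom k' ↔ y ∈ dom u.2) ∧
      mu k' = res (dom k') (nn u.1) * (γ * mu u.2 * γ⁻¹) := by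
    rintro ⟨i, k⟩
    obtain ⟨x, m, hm, h1, h2⟩ := hg.b1 k
    obtain ⟨k', h3, h4⟩ := hg.b2 (γ x) (nn i * (γ * m * γ⁻¹))
      (N.mul_mem (hφ0 i) (hg.norm _ hγ _ hm))
    have h5 : ∀ y, γ y ∈ dom k' ↔ y ∈ dom k := fun y => by rw [h3, h1, orb_conj hg hγ]
    refine ⟨k', h5, ?_⟩
    simp only
    rw [h2, ← h1, hres k k' h5 m hm, h4, h3]
    exact (resH N (γ x)).map_mul ⟨_, le_OP N (hφ0 i)⟩ ⟨_, le_OP N (hg.norm _ hγ _ hm)⟩
  choose ψ0 hψ1 hψ2 using hex
  have Ψinj : Function.Injective fun u : A × K => (φ0 u.1, ψ0 u) := by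
    rintro ⟨i, k⟩ ⟨j, k'⟩ h
    simp only [Prod.mk.injEq] at h
    obtain rfl := φinj h.1
    have h1 := hψ2 (i, k)
    have h2 := hψ2 (i, k')
    rw [h.2] at h1
    have h3 := mul_left_cancel (h1.symm.trans h2)
    refine Prod.ext rfl (hg.b3 _ _ ?_ (mul_left_cancel (mul_right_cancel h3)))
    ext y
    rw [← hψ1 (i, k), ← hψ1 (i, k'), h.2]
  let φ : Perm A := Equiv.ofBijective φ0 (Finite.injective_iff_bijective.1 φinj)
  let Ψ : Perm (A × K) := Equiv.ofBijective _ (Finite.injective_iff_bijective.1 Ψinj)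
  have hφ : ∀ i, φ i = φ0 i := fun _ => rfl
  have hΨ : ∀ u, Ψ u = (φ0 u.1, ψ0 u) := fun _ => rfl
  let σ : Perm (Nd Z A K) := Equiv.sumCongr γ (Equiv.sumCongr γ Ψ)
  let θ : Perm (Rw Z A K) :=
    Equiv.sumCongr σ (Equiv.sumCongr γ (Equiv.sumCongr φ (Ψ.prodCongr γ)))
  have hval : ∀ u z, z ∈ dom u.2 → g (φ0 u.1) (mu (ψ0 u) (γ z)) = γ (g u.1 (mu u.2 z)) := by
    intro u z hz
    obtain ⟨x, m, hm, h1, h2⟩ := hg.b1 u.2
    obtain ⟨x', -, -, h3, -⟩ := hg.b1 (ψ0 u)
    have hz' : mu u.2 z ∈ dom u.2 := by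
      rw [h2, res_mem (OP_inv (le_OP N hm) x) (h1 ▸ hz), h1, OP_inv (le_OP N hm)]
      exact h1 ▸ hz
    rw [hψ2]
    simp only [Perm.mul_apply, ias]
    rw [res_mem (h3 ▸ OP_inv (le_OP N (hφ0 u.1)) x') ((hψ1 u _).2 hz')]
    simp [nn]
  have hi : ∀ e x, incR g dom mu (θ e) (σ x) ↔ incR g dom mu e x := by
    intro e x
    rcases e with x0 | z | i | ⟨u, z⟩
    · exact σ.apply_eq_iff_eq
    · rcases x with y | y | v <;> simp [θ, σ, incR]
    · rcases x with y | y | v <;> simp [θ, σ, incR, hΨ, hφ, φinj.eq_iff, Prod.ext_iff]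
    · rcases x with y | y | v
      · simp [θ, σ, incR]
      · simp only [θ, σ, incR, Equiv.sumCongr_apply, Sum.map_inr, Sum.map_inl,
          Equiv.prodCongr_apply, Prod.map_apply, hΨ, hψ1, Sum.inr.injEq, reduceCtorEq, false_or,
          Sum.inl.injEq]
        refine and_congr_right fun hz => ?_
        rw [hval u z hz, γ.apply_eq_iff_eq]
      · simp [θ, σ, incR]
  have hc : ∀ e, colR dom Δ (θ e) = colR dom Δ e := by
    intro e
    rcases e with (z | z | u) | z | i | ⟨u, z⟩ <;> simp [θ, σ, colR, hΔ, hΨ, hψ1]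
  refine ⟨liftP σ θ γ, liftP_mem (incR g dom mu) _ γ hi hc ?_,
    fun z => liftP_row (incR g dom mu) γ hi hc _⟩
  intro h hh
  have cj : ∀ h h' : Nd Z A K → Perm Z, (∀ x, γ * h x * γ⁻¹ = h' (σ x)) →
      (fun x => γ * h (σ⁻¹ x) * γ⁻¹) = h' := by
    intro h h' e; funext x; rw [e, ais]
  induction hh using Subgroup.closure_induction with
  | mem x hx =>
    rcases hx with ⟨i, m, hm, rfl⟩ | ⟨i, rfl⟩
    · have hm' : m ∈ N := hs ▸ Subgroup.subset_closure hm
      rw [cj _ (hat dom (φ0 i) (γ * m * γ⁻¹))]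
      · exact hat_mem hg hs _ (hg.norm _ hγ _ hm')
      · rintro (z | z | ⟨j, k⟩)
        · simp [σ, hat]
        · simp [σ, hat]
        · simp only [σ, hat, Equiv.sumCongr_apply, Sum.map_inr, hΨ, φinj.eq_iff]
          split_ifs
          · exact hres _ _ (hψ1 (j, k)) m hm'
          · simp
    · rw [cj _ ((hat dom (φ0 i) (nn i))⁻¹ * tt mu (φ0 i))]
      · exact mul_mem (inv_mem (hat_mem hg hs _ (hφ0 i)))
          (Subgroup.subset_closure (Or.inr ⟨_, rfl⟩))
      · rintro (z | z | ⟨j, k⟩)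
        · simp [σ, hat, tt]
        · simp [σ, hat, tt]
        · simp only [σ, hat, tt, Equiv.sumCongr_apply, Sum.map_inr, hΨ, φinj.eq_iff, Pi.mul_apply,
            Pi.inv_apply]
          split_ifs with hj
          · subst hj
            rw [hψ2 (j, k)]; simp
          · simp
  | one => rw [cj 1 1 (by simp)]; exact one_mem _
  | mul x y _ _ hx hy =>
    rw [cj _ ((fun z => γ * x (σ⁻¹ z) * γ⁻¹) * fun z => γ * y (σ⁻¹ z) * γ⁻¹) (by simp)]
    exact mul_mem hx hy
  | inv x _ hx =>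
    rw [cj _ (fun z => γ * x (σ⁻¹ z) * γ⁻¹)⁻¹ (by simp [mul_assoc])]
    exact inv_mem hx

end

end

end Pool.Agent.Lib.MP_e519cf_lc
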