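import Mathlib

/-! Definitions used in the statement. -/

namespace Pool.Agent.Lib.MP_e519cf_lc

open Equiv

/-- Self-delimiting form of a bit string. -/
def mark (u : List Bool) : List Bool := u.flatMap (fun b => [true, b]) ++ [false]

/-- Unary code of a number. -/
def codeN (k : ℕ) : List Bool := List.replicate k true

/-- Code of a list. -/
def codeL {α : Type} (c : α → List Bool) (l : List α) : List Bool := l.flatMap fun a => mark (c a)

/-- Code of a pair. -/
def codeP {α β : Type} (c : α → List Bool) (c' : β → List Bool) (p : α × β) : List Bool :=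
  mark (c p.1) ++ c' p.2

/-- Lists of tables of permutations. -/
abbrev Tabs : Type := List (List ℕ)

def codeT : Tabs → List Bool := codeL (codeL codeN)

/-- Inputs `(n, s, generators, Γ, Δ)`. -/
abbrev Inp : Type := ℕ × ℕ × Tabs × List ℕ × List ℕ

def codeI : Inp → List Bool :=
  codeP codeN (codeP codeN (codeP codeT (codeP (codeL codeN) (codeL codeN))))

/-- The table of images of a permutation. -/
def tab {n : ℕ} (σ : Perm (Fin n)) : List ℕ := List.ofFn fun i => (σ i : ℕ)

/-- The group generated by a list of permutations. -/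
def gen {n : ℕ} (l : List (Perm (Fin n))) : Subgroup (Perm (Fin n)) := Subgroup.closure {x | x ∈ l}

def inp {n : ℕ} (s : ℕ) (gens : List (Perm (Fin n))) (Γ Δ : List (Fin n)) : Inp :=
  (n, s, gens.map tab, Γ.map Fin.val, Δ.map Fin.val)

/-- Every transitive constituent of `N` has order at most `s`. -/
def SmallConstituents {n : ℕ} (s : ℕ) (N : Subgroup (Perm (Fin n))) : Prop :=
  ∀ x : Fin n, (fixingSubgroup (Perm (Fin n)) (MulAction.orbit N x)).relIndex N ≤ s

/-- `Γ` is invariant under `G`, the group `G` is generated by its elements moving at most `d`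
points of `Γ`, and the kernel of the action on `Γ` has transitive constituents of order `≤ s`. -/
def InClass {n : ℕ} (d s : ℕ) (G : Subgroup (Perm (Fin n))) (Γ : Set (Fin n)) : Prop :=
  (∀ g ∈ G, ∀ x ∈ Γ, g x ∈ Γ) ∧
    G ≤ Subgroup.closure {g | g ∈ G ∧ {x | x ∈ Γ ∧ g x ≠ x}.ncard ≤ d} ∧
    SmallConstituents s (G ⊓ fixingSubgroup (Perm (Fin n)) Γ)

end Pool.Agent.Lib.MP_e519cf_lc
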