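import Pool.Agent.Lib.MP_e519cf_lc.Gadget

/-! The Furst-Hopcroft-Luks algorithm (strong generators) on abstract permutations. -/

namespace Pool.Agent.Lib.MP_e519cf_lc

open Equiv

section
variable {Z : Type} [DecidableEq Z] [Fintype Z]

def Fx (l : List Z) (t : Perm Z) : Prop := ∀ b ∈ l, t b = b

instance (l : List Z) (t : Perm Z) : Decidable (Fx l t) := List.decidableBAll (fun b => t b = b) l

def pick (S : List (Perm Z)) (pre : List Z) (b : Z) (g : Perm Z) : Perm Z :=
  ((1 :: S).filter fun t => decide (Fx pre t ∧ t b = g b)).headD 1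

def stepA (S : List (Perm Z)) (pre : List Z) (b : Z) (g : Perm Z) : Perm Z :=
  if Fx pre g then (pick S pre b g)⁻¹ * g else g

def siftA (S : List (Perm Z)) : List Z → List Z → Perm Z → Perm Z
  | _, [], g => g
  | pre, b :: r, g => siftA S (pre ++ [b]) r (stepA S pre b g)

def candA (gens S : List (Perm Z)) : List (Perm Z) := gens ++ S.flatMap fun t => S.map (t * ·)

def resA (gens : List (Perm Z)) (bs : List Z) (S : List (Perm Z)) : List (Perm Z) :=
  ((candA gens S).map (siftA S [] bs)).filter fun ρ => !decide (ρ = 1)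

def growA (gens : List (Perm Z)) (bs : List Z) (S : List (Perm Z)) : List (Perm Z) :=
  S ++ (resA gens bs S).take 1

def sgsA (gens : List (Perm Z)) (bs : List Z) (k : ℕ) : List (Perm Z) := (growA gens bs)^[k] []

omit [Fintype Z] [DecidableEq Z] in
theorem Fx.one (l : List Z) : Fx l 1 := fun _ _ => rfl

omit [Fintype Z] [DecidableEq Z] in
theorem Fx.mul {l : List Z} {a b : Perm Z} (ha : Fx l a) (hb : Fx l b) : Fx l (a * b) :=
  fun x hx => by rw [Perm.mul_apply, hb x hx, ha x hx]

omit [Fintype Z] [DecidableEq Z] in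
theorem Fx.inv {l : List Z} {a : Perm Z} (ha : Fx l a) : Fx l a⁻¹ :=
  fun x hx => by rw [Perm.inv_eq_iff_eq, ha x hx]

omit [Fintype Z] [DecidableEq Z] in
theorem Fx_append {l l' : List Z} {a : Perm Z} : Fx (l ++ l') a ↔ Fx l a ∧ Fx l' a := by
  simp only [Fx, List.mem_append, or_imp, forall_and]

omit [Fintype Z] in
theorem pick_spec (S : List (Perm Z)) (pre : List Z) (b : Z) (g : Perm Z) :
    (pick S pre b g ∈ 1 :: S ∧ Fx pre (pick S pre b g) ∧ pick S pre b g b = g b) ∨
      (pick S pre b g = 1 ∧ ∀ t ∈ 1 :: S, Fx pre t → t b ≠ g b) := by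
  unfold pick
  cases h : (1 :: S).filter fun t => decide (Fx pre t ∧ t b = g b) with
  | nil =>
    right
    refine ⟨rfl, fun t ht h1 h2 => ?_⟩
    have := List.filter_eq_nil_iff.1 h t ht
    simp [h1, h2] at this
  | cons a l =>
    left
    have : a ∈ (1 :: S).filter fun t => decide (Fx pre t ∧ t b = g b) := by rw [h]; simp
    rw [List.mem_filter] at this
    simpa using this

omit [Fintype Z] in
theorem pick_fix (S : List (Perm Z)) (pre : List Z) {b : Z} {g : Perm Z} (h : g b = b) :
    pick S pre b g = 1 := by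
  unfold pick
  rw [List.filter_cons_of_pos (by simp [Fx.one, h])]
  rfl

omit [Fintype Z] in
theorem pick_mem (S : List (Perm Z)) (pre : List Z) (b : Z) (g : Perm Z) :
    pick S pre b g ∈ 1 :: S := by
  rcases pick_spec S pre b g with h | h
  · exact h.1
  · rw [h.1]; simp

omit [Fintype Z] in
theorem sift_stuck (S : List (Perm Z)) (r : List Z) : ∀ (pre : List Z) (g : Perm Z), ¬ Fx pre g →
    siftA S pre r g = g := by
  induction r with
  | nil => intro _ _ _; rfl
  | cons b r ih =>
    intro pre g h
    rw [siftA, stepA, if_neg h, ih _ _ fun h' => h (Fx_append.1 h').1]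

omit [Fintype Z] in
theorem sift_skip (S : List (Perm Z)) (mid r : List Z) : ∀ (pre : List Z) (g : Perm Z),
    Fx (pre ++ mid) g → siftA S pre (mid ++ r) g = siftA S (pre ++ mid) r g := by
  induction mid with
  | nil => intro _ _ _; simp
  | cons b mid ih =>
    intro pre g h
    have h1 := Fx_append.1 h
    rw [List.cons_append, siftA, stepA, if_pos h1.1, pick_fix S pre (h1.2 b (by simp)), inv_one,
      one_mul, ih _ _ (by simpa using h)]
    simp

omit [Fintype Z] in
theorem sift_mem {S : List (Perm Z)} {H : Subgroup (Perm Z)} (hS : ∀ t ∈ S, t ∈ H) (r : List Z) :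
    ∀ (pre : List Z) (g : Perm Z), g * (siftA S pre r g)⁻¹ ∈ H := by
  induction r with
  | nil => intro _ _; simp [siftA]
  | cons b r ih =>
    intro pre g
    have h1 := ih (pre ++ [b]) (stepA S pre b g)
    have h2 : pick S pre b g ∈ H := by
      rcases List.mem_cons.1 (pick_mem S pre b g) with h | h
      · rw [h]; exact H.one_mem
      · exact hS _ h
    rw [siftA]
    unfold stepA at h1 ⊢
    split_ifs at h1 ⊢
    · have := H.mul_mem h2 h1
      rwa [← mul_assoc, mul_inv_cancel_left] at this
    · exact h1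

omit [Fintype Z] in
theorem sift_res (S : List (Perm Z)) (r : List Z) : ∀ (pre : List Z) (g : Perm Z), Fx pre g →
    Fx (pre ++ r) (siftA S pre r g) ∨ ∃ mid b r', r = mid ++ b :: r' ∧
      Fx (pre ++ mid) (siftA S pre r g) ∧
        ∀ t ∈ 1 :: S, Fx (pre ++ mid) t → t b ≠ siftA S pre r g b := by
  induction r with
  | nil => intro pre g h; left; simpa [siftA] using h
  | cons b r ih =>
    intro pre g h
    rw [siftA, stepA, if_pos h]
    rcases pick_spec S pre b g with ⟨-, h1, h2⟩ | ⟨h1, h2⟩
    · have h3 : Fx (pre ++ [b]) ((pick S pre b g)⁻¹ * g) := by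
        refine Fx_append.2 ⟨h1.inv.mul h, fun x hx => ?_⟩
        rw [List.mem_singleton.1 hx, Perm.mul_apply, ← h2, ias]
      rcases ih _ _ h3 with h4 | ⟨mid, b', r', e, h4, h5⟩
      · left; simpa using h4
      · right
        exact ⟨b :: mid, b', r', by simp [e], by simpa using h4, by simpa using h5⟩
    · rw [h1, inv_one, one_mul, sift_stuck]
      · right
        exact ⟨[], b, r, rfl, by simpa using h, by simpa using h2⟩
      · intro h3
        exact h2 1 (by simp) (Fx.one _) ((Fx_append.1 h3).2 b (by simp)).symm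

def TT (S : List (Perm Z)) (pre : List Z) : Set (Perm Z) := {t | t ∈ 1 :: S ∧ Fx pre t}

def PP (S : List (Perm Z)) : List Z → List Z → Set (Perm Z)
  | _, [] => {1}
  | pre, b :: r => {g | ∃ t ∈ TT S pre, ∃ p ∈ PP S (pre ++ [b]) r, g = t * p}

omit [Fintype Z] in
theorem sift_one (S : List (Perm Z)) (r : List Z) : ∀ (pre : List Z) (g : Perm Z), Fx pre g →
    siftA S pre r g = 1 → g ∈ PP S pre r := by
  induction r with
  | nil => intro pre g _ h; exact h
  | cons b r ih =>
    intro pre g h h0
    rw [siftA, stepA, if_pos h] at h0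
    rcases pick_spec S pre b g with ⟨hm, h1, h2⟩ | ⟨h1, h2⟩
    · have h3 : Fx (pre ++ [b]) ((pick S pre b g)⁻¹ * g) := by
        refine Fx_append.2 ⟨h1.inv.mul h, fun x hx => ?_⟩
        rw [List.mem_singleton.1 hx, Perm.mul_apply, ← h2, ias]
      exact ⟨_, ⟨hm, h1⟩, _, ih _ _ h3 h0, by simp⟩
    · have hb : g b ≠ b := fun e => h2 1 (by simp) (Fx.one _) e.symm
      rw [h1, inv_one, one_mul, sift_stuck] at h0
      · exact absurd (by rw [h0]; rfl) hb
      · intro h3
        exact hb ((Fx_append.1 h3).2 b (by simp))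

omit [Fintype Z] [DecidableEq Z] in
theorem one_mem_PP (S : List (Perm Z)) (r : List Z) : ∀ pre : List Z, 1 ∈ PP S pre r := by
  induction r with
  | nil => intro _; rfl
  | cons b r ih => intro pre; exact ⟨1, ⟨by simp, Fx.one _⟩, 1, ih _, by simp⟩

omit [Fintype Z] [DecidableEq Z] in
theorem PP_fix (S : List (Perm Z)) (r : List Z) : ∀ (pre : List Z), ∀ g ∈ PP S pre r, Fx pre g := by
  induction r with
  | nil => intro pre g h; rw [h]; exact Fx.one _
  | cons b r ih =>
    rintro pre g ⟨t, ht, p, hp, rfl⟩
    exact ht.2.mul (Fx_append.1 (ih _ _ hp)).1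

omit [Fintype Z] [DecidableEq Z] in
theorem PP_left {S : List (Perm Z)} {W : Set (Perm Z)} (r : List Z) : ∀ (pre : List Z),
    (∀ t ∈ TT S pre, ∀ q ∈ W, t * q ∈ W) → ∀ p ∈ PP S pre r, ∀ q ∈ W, p * q ∈ W := by
  induction r with
  | nil => intro pre _ p hp q hq; rw [hp]; simpa using hq
  | cons b r ih =>
    rintro pre h _ ⟨t, ht, p, hp, rfl⟩ q hq
    rw [mul_assoc]
    exact h t ht _ (ih _ (fun t ht => h t ⟨ht.1, (Fx_append.1 ht.2).1⟩) p hp q hq)

/-- All products of two table entries and all generators sift to the identity. -/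
def Stable (gens : List (Perm Z)) (bs : List Z) (S : List (Perm Z)) : Prop := resA gens bs S = []

theorem Stable.sift {gens : List (Perm Z)} {bs : List Z} {S : List (Perm Z)}
    (h : Stable gens bs S) {g : Perm Z} (hg : g ∈ candA gens S) : siftA S [] bs g = 1 := by
  have := List.filter_eq_nil_iff.1 h _ (List.mem_map_of_mem hg)
  simpa using this

theorem Stable.closed {gens : List (Perm Z)} {bs : List Z} {S : List (Perm Z)}
    (h : Stable gens bs S) (hb : ∀ z, z ∈ bs) (r : List Z) : ∀ pre : List Z, pre ++ r = bs →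
      ∀ t ∈ TT S pre, ∀ q ∈ PP S pre r, t * q ∈ PP S pre r := by
  induction r with
  | nil =>
    intro pre e t ht q hq
    have : t = 1 := Equiv.ext fun z => ht.2 z (by simpa [← e] using hb z)
    rw [this, one_mul]; exact hq
  | cons b r ih =>
    rintro pre e t ht _ ⟨t', ht', p, hp, rfl⟩
    have ih' := ih (pre ++ [b]) (by simpa using e)
    have h1 : t * t' ∈ PP S pre (b :: r) := by
      rcases List.mem_cons.1 ht.1 with rfl | h1
      · exact ⟨t', ht', 1, one_mem_PP _ _ _, by simp⟩
      rcases List.mem_cons.1 ht'.1 with rfl | h2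
      · exact ⟨t, ht, 1, one_mem_PP _ _ _, by simp⟩
      have h3 := h.sift (g := t * t') (by
        simp only [candA, List.mem_append, List.mem_flatMap, List.mem_map]
        exact Or.inr ⟨t, h1, t', h2, rfl⟩)
      have h4 := ht.2.mul ht'.2
      rw [← e, sift_skip _ _ _ _ _ (by simpa using h4)] at h3
      exact sift_one _ _ _ _ h4 (by simpa using h3)
    obtain ⟨t'', ht'', p', hp', e'⟩ := h1
    refine ⟨t'', ht'', p' * p, PP_left r _ ih' p' hp' p hp, ?_⟩
    rw [← mul_assoc, e', mul_assoc]

theorem Stable.mem_PP {gens : List (Perm Z)} {bs : List Z} {S : List (Perm Z)}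
    (h : Stable gens bs S) (hb : ∀ z, z ∈ bs) {g : Perm Z}
    (hg : g ∈ Subgroup.closure {x | x ∈ gens}) (pre r : List Z) (e : pre ++ r = bs)
    (hf : Fx pre g) : g ∈ PP S pre r := by
  have h0 : g ∈ PP S [] bs := by
    have hmul := PP_left bs [] (h.closed hb bs [] rfl)
    clear hf
    induction hg using Subgroup.closure_induction with
    | mem x hx =>
      exact sift_one _ _ _ _ (fun _ h => by simp at h)
        (h.sift (List.mem_append_left _ hx))
    | one => exact one_mem_PP _ _ _
    | mul x y _ _ hx hy => exact hmul _ hx _ hy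
    | inv x _ hx =>
      have hp : ∀ k : ℕ, x ^ k ∈ PP S [] bs := by
        intro k
        induction k with
        | zero => exact one_mem_PP _ _ _
        | succ k ih => rw [pow_succ']; exact hmul _ hx _ ih
      have : x⁻¹ = x ^ (orderOf x - 1) := by
        rw [inv_eq_iff_mul_eq_one, ← pow_succ', Nat.sub_add_cancel (orderOf_pos x),
          pow_orderOf_eq_one]
      rw [this]; exact hp _
  have key : ∀ mid pre : List Z, pre ++ (mid ++ r) = bs → g ∈ PP S pre (mid ++ r) → Fx mid g →
      g ∈ PP S (pre ++ mid) r := by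
    intro mid
    induction mid with
    | nil => intro pre _ h _; simpa using h
    | cons b mid ih =>
      rintro pre e ⟨t, ht, p, hp, rfl⟩ hf
      have hpf := PP_fix _ _ _ _ hp
      have hb' : t b = b := by
        have := hf b (by simp)
        rwa [Perm.mul_apply, (Fx_append.1 hpf).2 b (by simp)] at this
      have := h.closed hb (mid ++ r) (pre ++ [b]) (by simpa using e) t
        ⟨ht.1, Fx_append.2 ⟨ht.2, fun x hx => by rw [List.mem_singleton.1 hx, hb']⟩⟩ p hp
      have := ih (pre ++ [b]) (by simpa using e) this (fun x hx => hf x (by simp [hx]))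
      simpa using this
  simpa using key pre [] (by simpa using e) (e ▸ h0) hf

theorem Stable.sgp {gens : List (Perm Z)} {bs : List Z} {S : List (Perm Z)}
    (h : Stable gens bs S) (hb : ∀ z, z ∈ bs) {g : Perm Z}
    (hg : g ∈ Subgroup.closure {x | x ∈ gens}) (pre : List Z) (b : Z) (r : List Z)
    (e : pre ++ b :: r = bs) (hf : Fx pre g) : ∃ t ∈ 1 :: S, Fx pre t ∧ t b = g b := by
  obtain ⟨t, ht, p, hp, rfl⟩ := h.mem_PP hb hg pre (b :: r) e hf
  exact ⟨t, ht.1, ht.2, by rw [Perm.mul_apply, (Fx_append.1 (PP_fix _ _ _ _ hp)).2 b (by simp)]⟩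

theorem Stable.stab {gens : List (Perm Z)} {bs : List Z} {S : List (Perm Z)}
    (h : Stable gens bs S) (hb : ∀ z, z ∈ bs) {g : Perm Z}
    (hg : g ∈ Subgroup.closure {x | x ∈ gens}) (pre r : List Z) (e : pre ++ r = bs)
    (hf : Fx pre g) : g ∈ Subgroup.closure {x | x ∈ S.filter fun t => decide (Fx pre t)} := by
  have := PP_left (W := Subgroup.closure {x | x ∈ S.filter fun t => decide (Fx pre t)}) r pre
    (fun t ht q hq => by
      refine Subgroup.mul_mem _ ?_ hq
      rcases List.mem_cons.1 ht.1 with rfl | h1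
      · exact one_mem _
      · exact Subgroup.subset_closure (by simp [h1, ht.2]))
    g (h.mem_PP hb hg pre r e hf) 1 (one_mem _)
  simpa using this

theorem Stable.lift {gens : List (Perm Z)} {bs : List Z} {S : List (Perm Z)}
    (h : Stable gens bs S) (hb : ∀ z, z ∈ bs)
    (hS : ∀ t ∈ S, t ∈ Subgroup.closure {x | x ∈ gens}) (r' r : List Z) :
    ∀ (pre : List Z) (π g : Perm Z), pre ++ (r ++ r') = bs → g ∈ Subgroup.closure {x | x ∈ gens} →
      (∀ x ∈ pre ++ r, g x = π x) → Fx pre π → Fx (pre ++ r) (siftA S pre r π) := by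
  induction r with
  | nil => intro pre π g _ _ _ hf; simpa [siftA] using hf
  | cons b r ih =>
    intro pre π g e hg ha hf
    have hfg : Fx pre g := fun x hx => by rw [ha x (by simp [hx]), hf x hx]
    obtain ⟨t, ht, h1, h2⟩ := h.sgp hb hg pre b (r ++ r') (by simpa using e) hfg
    rw [siftA, stepA, if_pos hf]
    rcases pick_spec S pre b π with ⟨hm, h3, h4⟩ | ⟨-, h3⟩
    · have hp : pick S pre b π ∈ Subgroup.closure {x | x ∈ gens} := by
        rcases List.mem_cons.1 hm with h | h
        · rw [h]; exact one_mem _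
        · exact hS _ h
      have := ih (pre ++ [b]) ((pick S pre b π)⁻¹ * π) ((pick S pre b π)⁻¹ * g) (by simpa using e)
        (mul_mem (inv_mem hp) hg)
        (fun x hx => by rw [Perm.mul_apply, Perm.mul_apply, ha x (by simpa using hx)])
        (Fx_append.2 ⟨h3.inv.mul hf, fun x hx => by
          rw [List.mem_singleton.1 hx, Perm.mul_apply, ← h4, ias]⟩)
      simpa using this
    · exact absurd (h2.trans (ha b (by simp))) (h3 t ht h1)

open Classical in
noncomputable def meas (bs : List Z) (S : List (Perm Z)) : ℕ :=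
  (Finset.univ.filter fun p : Fin bs.length × Z =>
    ∃ t ∈ 1 :: S, Fx (bs.take p.1) t ∧ t bs[p.1] = p.2).card

theorem meas_le (bs : List Z) (S : List (Perm Z)) : meas bs S ≤ bs.length * Fintype.card Z := by
  refine (Finset.card_le_univ _).trans ?_
  simp

theorem grow_meas {gens : List (Perm Z)} {bs : List Z} (hb : ∀ z, z ∈ bs) {S : List (Perm Z)}
    (h : ¬ Stable gens bs S) : meas bs S < meas bs (growA gens bs S) := by
  classical
  obtain ⟨ρ, l, e⟩ := List.exists_cons_of_ne_nil h
  have hρ : ρ ∈ resA gens bs S := by rw [e]; simp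
  simp only [resA, List.mem_filter, List.mem_map, Bool.not_eq_eq_eq_not, Bool.not_true,
    decide_eq_false_iff_not] at hρ
  obtain ⟨⟨c, -, hc⟩, hne⟩ := hρ
  have hg : growA gens bs S = S ++ [ρ] := by rw [growA, e]; rfl
  rcases sift_res S bs [] c (fun _ h => by simp at h) with h1 | ⟨mid, b, r', e1, h1, h2⟩
  · exact absurd (Equiv.ext fun z => hc ▸ h1 z (by simpa using hb z)) hne
  rw [hc] at h1 h2
  simp only [List.nil_append] at h1 h2
  rw [hg]
  apply Finset.card_lt_card
  rw [Finset.ssubset_iff_of_subset]
  · have hl : mid.length < bs.length := by rw [e1]; simp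
    have e2 : bs.take mid.length = mid := by rw [e1]; simp
    have e3 : bs[mid.length] = b := by simp [e1]
    refine ⟨(⟨mid.length, hl⟩, ρ b), ?_, ?_⟩
    · simp only [Finset.mem_filter, Finset.mem_univ, true_and, Fin.getElem_fin, e2, e3]
      exact ⟨ρ, by simp, h1, rfl⟩
    · simp only [Finset.mem_filter, Finset.mem_univ, true_and, Fin.getElem_fin, e2, e3]
      rintro ⟨t, ht, h3, h4⟩
      exact h2 t ht h3 h4
  · intro p hp
    simp only [Finset.mem_filter, Finset.mem_univ, true_and] at hp ⊢
    obtain ⟨t, ht, h3⟩ := hp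
    exact ⟨t, by simp only [List.mem_cons, List.mem_append] at ht ⊢; tauto, h3⟩

theorem sgs_stable (gens : List (Perm Z)) {bs : List Z} (hb : ∀ z, z ∈ bs) {k : ℕ}
    (hk : bs.length * Fintype.card Z < k) : Stable gens bs (sgsA gens bs k) := by
  have key : ∀ k, Stable gens bs (sgsA gens bs k) ∨ k ≤ meas bs (sgsA gens bs k) := by
    intro k
    induction k with
    | zero => right; omega
    | succ k ih =>
      have e : sgsA gens bs (k + 1) = growA gens bs (sgsA gens bs k) :=
        Function.iterate_succ_apply' _ _ _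
      by_cases hs : Stable gens bs (sgsA gens bs k)
      · left
        have : growA gens bs (sgsA gens bs k) = sgsA gens bs k := by
          rw [growA, hs]; simp
        rw [e, this]; exact hs
      · right
        have := grow_meas hb hs
        rw [e]
        rcases ih with h | h
        · exact absurd h hs
        · omega
  rcases key k with h | h
  · exact h
  · have := meas_le bs (sgsA gens bs k); omega

theorem sgs_mem (gens : List (Perm Z)) (bs : List Z) (k : ℕ) :
    ∀ t ∈ sgsA gens bs k, t ∈ Subgroup.closure {x | x ∈ gens} := by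
  induction k with
  | zero => simp [sgsA]
  | succ k ih =>
    have e : sgsA gens bs (k + 1) = growA gens bs (sgsA gens bs k) :=
      Function.iterate_succ_apply' _ _ _
    rw [e]
    intro t ht
    rcases List.mem_append.1 ht with h | h
    · exact ih t h
    · have h1 := List.mem_of_mem_take h
      simp only [resA, List.mem_filter, List.mem_map] at h1
      obtain ⟨⟨c, hc, rfl⟩, -⟩ := h1
      have h2 : c ∈ Subgroup.closure {x | x ∈ gens} := by
        simp only [candA, List.mem_append, List.mem_flatMap, List.mem_map] at hc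
        rcases hc with hc | ⟨a, ha, b, hb, rfl⟩
        · exact Subgroup.subset_closure hc
        · exact mul_mem (ih a ha) (ih b hb)
      have h3 := sift_mem ih bs [] c
      have := mul_mem (inv_mem h3) h2
      simpa using this

theorem sgs_length (gens : List (Perm Z)) (bs : List Z) (k : ℕ) : (sgsA gens bs k).length ≤ k := by
  induction k with
  | zero => simp [sgsA]
  | succ k ih =>
    have e : sgsA gens bs (k + 1) = growA gens bs (sgsA gens bs k) :=
      Function.iterate_succ_apply' _ _ _
    rw [e, growA, List.length_append, List.length_take]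
    omega

end

end Pool.Agent.Lib.MP_e519cf_lc
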