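import Pool.Agent.Lib.MP_e519cf_lc.Lists
import Pool.Agent.Lib.MP_e519cf_lc.Cosets

/-! Computation of the coset representatives, of the local maps and of the final intersection. -/

namespace Pool.Agent.Lib.MP_e519cf_lc

open Equiv Pool.Agent.Lib.helper80 Classical

theorem closure_sub {G : Type} [Group G] [Finite G] {s W : Set G} (h1 : 1 ∈ W)
    (hm : ∀ a ∈ W, ∀ b ∈ W, a * b ∈ W) (hs : s ⊆ W) {g : G} (hg : g ∈ Subgroup.closure s) :
    g ∈ W := by
  induction hg using Subgroup.closure_induction with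
  | mem x hx => exact hs hx
  | one => exact h1
  | mul x y _ _ hx hy => exact hm _ hx _ hy
  | inv x _ hx =>
    have hp : ∀ k : ℕ, x ^ k ∈ W := by
      intro k
      induction k with
      | zero => rw [pow_zero]; exact h1
      | succ k ih => rw [pow_succ']; exact hm _ hx _ ih
    have : x⁻¹ = x ^ (orderOf x - 1) := by
      rw [inv_eq_iff_mul_eq_one, ← pow_succ', Nat.sub_add_cancel (orderOf_pos x),
        pow_orderOf_eq_one]
    rw [this]; exact hp _

theorem dedupB_map {α β : Type} [DecidableEq α] [DecidableEq β] {f : α → β}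
    (hf : Function.Injective f) (l : List α) : dedupB (l.map f) = (dedupB l).map f := by
  have key : ∀ (l acc : List α), (l.map f).foldl
      (fun acc x => bif acc.any (fun y => eqb x y) then acc else acc ++ [x]) (acc.map f) =
      (l.foldl (fun acc x => bif acc.any (fun y => eqb x y) then acc else acc ++ [x]) acc).map f := by
    intro l
    induction l with
    | nil => intro _; rfl
    | cons b l ih =>
      intro acc
      rw [List.map_cons, List.foldl_cons, List.foldl_cons, ← ih]
      have : (acc.map f).any (fun y => eqb (f b) y) = acc.any (fun y => eqb b y) := by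
        rw [Bool.eq_iff_iff]; simp [hf.eq_iff]
      rw [this]
      cases acc.any (fun y => eqb b y) <;> simp
  exact key l []

def swapL (n a b : ℕ) : List ℕ :=
  (List.range n).map fun y => bif eqb y a then b else bif eqb y b then a else y

def prodsL (n : ℕ) (Γ : List ℕ) : ℕ → Tabs
  | 0 => [List.range n]
  | d + 1 => prodsL n Γ d ++
      (prodsL n Γ d).flatMap fun p => Γ.flatMap fun a => Γ.map fun b => mulL (swapL n a b) p

def liftsL (d n : ℕ) (gens : Tabs) (Γ : List ℕ) : Tabs :=
  ((dedupB (prodsL n Γ d)).filter fun π =>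
    fixL Γ (siftL n (sgsL n gens (Γ ++ List.range n)) Γ π)).map fun π =>
      mulL π (invL (siftL n (sgsL n gens (Γ ++ List.range n)) Γ π))

def orbL (n : ℕ) (gN : Tabs) (x : ℕ) : Tabs :=
  clos (n + 1) (fun l => gN.map fun m => mulL m l) [[x]]

def idbL (n : ℕ) (gN : Tabs) (x : ℕ) : List ℕ :=
  (List.range n).map fun y => bif (orbL n gN x).any (fun l => eqb l [y]) then y else n

def usL (n s : ℕ) (gN : Tabs) : Tabs :=
  clos (n * s + n) (fun l => gN.map fun m => mulL m l) ((List.range n).map fun x => idbL n gN x)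

def pairL (n : ℕ) (p q : List ℕ) : List ℕ := p ++ q.map fun x => n + x

def interL (n : ℕ) (τs gens : Tabs) : Tabs :=
  (stabL (n + n) ((τs.map fun t => pairL n t t) ++ gens.map fun g => pairL n (List.range n) g)
    ((List.range n).map fun x => n + x)).map fun t => t.take n

section
variable {α : Type} [Enc α]

@[fun_prop] theorem pt_swapL {n x y : α → ℕ} (hn : PT n) (hx : PT x) (hy : PT y) :
    PT (fun a => swapL (n a) (x a) (y a)) := by unfold swapL; fun_prop

@[fun_prop] theorem pt_prodsL (d : ℕ) {n : α → ℕ} {Γ : α → List ℕ} (hn : PT n) (hΓ : PT Γ) :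
    PT (fun a => prodsL (n a) (Γ a) d) := by
  induction d with
  | zero => unfold prodsL; fun_prop
  | succ d ih => unfold prodsL; fun_prop

@[fun_prop] theorem pt_liftsL (d : ℕ) {n : α → ℕ} {gens : α → Tabs} {Γ : α → List ℕ} (hn : PT n)
    (hg : PT gens) (hΓ : PT Γ) : PT (fun a => liftsL d (n a) (gens a) (Γ a)) := by
  unfold liftsL; fun_prop

@[fun_prop] theorem pt_orbL {n x : α → ℕ} {gN : α → Tabs} (hn : PT n) (hg : PT gN) (hx : PT x) :
    PT (fun a => orbL (n a) (gN a) (x a)) :=
  pt_clos (step := fun a l => (gN a).map fun m => mulL m l) (by fun_prop) (by fun_prop)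
    (by fun_prop)

@[fun_prop] theorem pt_idbL {n x : α → ℕ} {gN : α → Tabs} (hn : PT n) (hg : PT gN) (hx : PT x) :
    PT (fun a => idbL (n a) (gN a) (x a)) := by unfold idbL; fun_prop

@[fun_prop] theorem pt_usL {n s : α → ℕ} {gN : α → Tabs} (hn : PT n) (hs : PT s) (hg : PT gN) :
    PT (fun a => usL (n a) (s a) (gN a)) :=
  pt_clos (step := fun a l => (gN a).map fun m => mulL m l) (by fun_prop) (by fun_prop)
    (by fun_prop)

@[fun_prop] theorem pt_interL {n : α → ℕ} {t g : α → Tabs} (hn : PT n) (ht : PT t) (hg : PT g) :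
    PT (fun a => interL (n a) (t a) (g a)) := by unfold interL pairL; fun_prop

end

section
variable {n : ℕ}

theorem swapL_tab (a b : Fin n) : swapL n a b = tab (swap a b) := by
  rw [swapL, range_map_eq]
  unfold tab
  congr 1
  funext y
  rw [swap_apply_def]
  by_cases h : y = a
  · simp [h, eqb]
  · by_cases h' : y = b
    · subst h'; simp [h, eqb, Fin.val_inj]
    · simp [h, h', eqb, Fin.val_inj]

def prodsA (Γ : List (Fin n)) : ℕ → List (Perm (Fin n))
  | 0 => [1]
  | d + 1 => prodsA Γ d ++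
      (prodsA Γ d).flatMap fun p => Γ.flatMap fun a => Γ.map fun b => swap a b * p

theorem prodsL_tab (Γ : List (Fin n)) (d : ℕ) :
    prodsL n (Γ.map Fin.val) d = (prodsA Γ d).map tab := by
  induction d with
  | zero => simp [prodsL, prodsA, tab_one]
  | succ d ih =>
    simp [prodsL, prodsA, ih, List.flatMap_map, List.map_flatMap, Function.comp_def, swapL_tab,
      mulL_tab]

theorem mem_prodsA_succ {Γ : List (Fin n)} {d : ℕ} {π : Perm (Fin n)} :
    π ∈ prodsA Γ (d + 1) ↔ π ∈ prodsA Γ d ∨ ∃ p ∈ prodsA Γ d, ∃ a ∈ Γ, ∃ b ∈ Γ, swap a b * p = π := by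
  simp [prodsA]

theorem prodsA_fix {Γ : List (Fin n)} (d : ℕ) : ∀ π ∈ prodsA Γ d, ∀ x, x ∉ Γ → π x = x := by
  induction d with
  | zero => simp [prodsA]
  | succ d ih =>
    intro π h x hx
    rcases mem_prodsA_succ.1 h with h | ⟨p, hp, a, ha, b, hb, rfl⟩
    · exact ih π h x hx
    · rw [Perm.mul_apply, ih p hp x hx, swap_apply_of_ne_of_ne]
      · rintro rfl; exact hx ha
      · rintro rfl; exact hx hb

theorem prodsA_conj {Γ : List (Fin n)} {γ : Perm (Fin n)} (hγ : ∀ x ∈ Γ, γ x ∈ Γ) (d : ℕ) :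
    ∀ π ∈ prodsA Γ d, γ * π * γ⁻¹ ∈ prodsA Γ d := by
  induction d with
  | zero => simp [prodsA]
  | succ d ih =>
    intro π h
    rw [mem_prodsA_succ] at h ⊢
    rcases h with h | ⟨p, hp, a, ha, b, hb, rfl⟩
    · exact Or.inl (ih π h)
    · refine Or.inr ⟨_, ih p hp, γ a, hγ a ha, γ b, hγ b hb, ?_⟩
      rw [swap_apply_apply]; group

theorem prodsA_supp {Γ : List (Fin n)} (d : ℕ) : ∀ π : Perm (Fin n), (∀ x, x ∉ Γ → π x = x) →
    π.support.card ≤ d → π ∈ prodsA Γ d := by
  induction d with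
  | zero =>
    intro π _ h
    simpa [prodsA] using h
  | succ d ih =>
    intro π h1 h2
    rw [mem_prodsA_succ]
    by_cases h : π = 1
    · exact Or.inl (ih π h1 (by simp [h]))
    · obtain ⟨x, hx⟩ : ∃ x, π x ≠ x := by
        by_contra hc
        push Not at hc
        exact h (Equiv.ext hc)
      have hxΓ : x ∈ Γ := by by_contra hc; exact hx (h1 x hc)
      have hyΓ : π x ∈ Γ := by by_contra hc; exact hx (π.injective (h1 _ hc))
      refine Or.inr ⟨swap x (π x) * π, ih _ (fun y hy => ?_) ?_, x, hxΓ, π x, hyΓ, by simp⟩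
      · rw [Perm.mul_apply, h1 y hy, swap_apply_of_ne_of_ne]
        · rintro rfl; exact hy hxΓ
        · rintro rfl; exact hy hyΓ
      · have := Perm.card_support_swap_mul hx
        omega

noncomputable def pisA (d : ℕ) (gens : List (Perm (Fin n))) (Γ : List (Fin n)) :
    List (Perm (Fin n)) :=
  (dedupB (prodsA Γ d)).filter fun π => decide (Fx Γ (siftA (sgs gens Γ) [] Γ π))

noncomputable def liftsA (d : ℕ) (gens : List (Perm (Fin n))) (Γ : List (Fin n)) :
    List (Perm (Fin n)) :=
  (pisA d gens Γ).map fun π => π * (siftA (sgs gens Γ) [] Γ π)⁻¹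

theorem liftsL_tab (d : ℕ) (gens : List (Perm (Fin n))) (Γ : List (Fin n)) :
    liftsL d n (gens.map tab) (Γ.map Fin.val) = (liftsA d gens Γ).map tab := by
  rw [liftsL, sgs_tab, prodsL_tab, dedupB_map tab_inj, List.filter_map, liftsA, pisA, List.map_map,
    List.map_map]
  congr 1
  · funext π
    simp [siftL_tab, invL_tab, mulL_tab]
  · congr 1
    funext π
    simp [siftL_tab, fixL_tab]

theorem lifts_good {d : ℕ} {gens : List (Perm (Fin n))} {Γ : List (Fin n)}
    (h1 : ∀ g ∈ gen gens, ∀ x ∈ Γ, g x ∈ Γ)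
    (h2 : gen gens ≤ Subgroup.closure {g | g ∈ gen gens ∧ {x | x ∈ Γ ∧ g x ≠ x}.ncard ≤ d})
    {N : Subgroup (Perm (Fin n))} (hN : ∀ g, g ∈ N ↔ g ∈ gen gens ∧ Fx Γ g)
    (g : Fin (liftsA d gens Γ).length → Perm (Fin n)) (hg : ∀ i, g i = (liftsA d gens Γ)[i.1]) :
    (∀ i, g i ∈ gen gens) ∧ (∀ i j, (g i)⁻¹ * g j ∈ N → i = j) ∧
      (∀ γ ∈ gen gens, ∀ i, ∃ j, (g j)⁻¹ * (γ * g i * γ⁻¹) ∈ N) ∧
      gen gens ≤ Subgroup.closure {p | ∃ i, ∃ m ∈ N, p = g i * m} := by
  have hl : (liftsA d gens Γ).length = (pisA d gens Γ).length := by simp [liftsA]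
  let π : Fin (liftsA d gens Γ).length → Perm (Fin n) := fun i => (pisA d gens Γ)[i.1]'(hl ▸ i.2)
  have e : ∀ i, g i = π i * (siftA (sgs gens Γ) [] Γ (π i))⁻¹ := by
    intro i; rw [hg]; exact List.getElem_map _
  have hπ : ∀ i, π i ∈ prodsA Γ d ∧ Fx Γ (siftA (sgs gens Γ) [] Γ (π i)) := by
    intro i
    have : π i ∈ pisA d gens Γ := List.getElem_mem _
    simpa [pisA] using this
  have hm : ∀ i, g i ∈ gen gens := fun i => e i ▸ lift_mem gens Γ _
  have ha : ∀ i, ∀ x ∈ Γ, g i x = π i x := by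
    intro i x hx
    rw [e, Perm.mul_apply, (hπ i).2.inv x hx]
  have hex : ∀ p ∈ prodsA Γ d, ∀ γ ∈ gen gens, (∀ x ∈ Γ, γ x = p x) →
      ∃ j, (g j)⁻¹ * γ ∈ N := by
    intro p hp γ hγ h
    have : p ∈ pisA d gens Γ := by simpa [pisA] using ⟨hp, lift_fix gens Γ hγ h⟩
    obtain ⟨j, hj, rfl⟩ := List.getElem_of_mem this
    refine ⟨⟨j, hl ▸ hj⟩, (hN _).2 ⟨mul_mem (inv_mem (hm _)) hγ, fun x hx => ?_⟩⟩
    rw [Perm.mul_apply, h x hx, Perm.inv_eq_iff_eq, ha _ x hx]
  refine ⟨hm, fun i j h => ?_, fun γ hγ i => ?_, h2.trans ?_⟩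
  · have : π i = π j := by
      ext x
      by_cases hx : x ∈ Γ
      · have := ((hN _).1 h).2 x hx
        rw [Perm.mul_apply, Perm.inv_eq_iff_eq] at this
        rw [← ha i x hx, ← ha j x hx, this]
      · rw [prodsA_fix d _ (hπ i).1 x hx, prodsA_fix d _ (hπ j).1 x hx]
    have hn : (pisA d gens Γ).Nodup := (nodup_dedupB _).filter _
    exact Fin.ext ((List.Nodup.getElem_inj_iff hn).1 this)
  · refine hex _ (prodsA_conj (h1 γ hγ) d _ (hπ i).1) _
      (mul_mem (mul_mem hγ (hm i)) (inv_mem hγ)) fun x hx => ?_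
    simp only [Perm.mul_apply]
    rw [ha i _ (h1 _ (inv_mem hγ) x hx)]
  · rw [Subgroup.closure_le]
    rintro γ ⟨hγ, hc⟩
    have hi : ∀ x, γ x ∈ {x | x ∈ Γ} ↔ x ∈ {x | x ∈ Γ} := fun x =>
      ⟨fun h => by simpa using h1 _ (inv_mem hγ) _ h, h1 γ hγ x⟩
    obtain ⟨j, hj⟩ := hex (res {x | x ∈ Γ} γ) (prodsA_supp d _ (fun x hx => res_not _ hx) (by
      refine le_trans ?_ hc
      rw [← Set.ncard_coe_finset]
      refine Set.ncard_le_ncard (fun x hx => ?_) (Set.toFinite _)
      simp only [Finset.mem_coe, Perm.mem_support] at hx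
      have hx' : x ∈ Γ := by by_contra h; exact hx (res_not _ h)
      exact ⟨hx', by rwa [res_mem hi hx'] at hx⟩)) γ hγ fun x hx => (res_mem hi hx).symm
    exact Subgroup.subset_closure ⟨j, _, hj, by simp⟩

noncomputable def pm (β : Set (Fin n)) (m : Perm (Fin n)) : List ℕ :=
  List.ofFn fun y : Fin n => if y ∈ β then (m y : ℕ) else n

theorem mulL_pm (β : Set (Fin n)) (m m' : Perm (Fin n)) : mulL (tab m') (pm β m) = pm β (m' * m) := by
  simp only [mulL, pm, List.map_ofFn]
  congr 1
  funext y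
  simp only [Function.comp]
  split_ifs
  · exact app_tab _ _
  · exact app_tab_ge _ le_rfl

theorem getD_pm (β : Set (Fin n)) (m : Perm (Fin n)) (y : Fin n) :
    (pm β m).getD y n = if y ∈ β then (m y : ℕ) else n := by
  rw [List.getD_eq_getElem _ _ (by simp [pm])]
  simp [pm]

theorem mem_orbL (gN : List (Perm (Fin n))) (x y : Fin n) :
    [y.val] ∈ orbL n (gN.map tab) x ↔ y ∈ orb (gen gN) x := by
  obtain ⟨-, h1, h2, h3⟩ := clos_spec (M := n + 1)
    (step := fun l => (gN.map tab).map fun m => mulL m l) (init := [[x.val]])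
    ((Finset.univ.filter fun y : Fin n => y ∈ orb (gen gN) x).image fun y => [y.val])
    (Finset.card_image_le.trans ((Finset.card_le_univ _).trans (by simp)))
    (by
      intro l hl
      obtain ⟨y, -, rfl⟩ := Finset.mem_image.1 hl
      exact ⟨by simp, by simp; omega⟩)
    (by simpa using ⟨x, self_mem_orb _ _, rfl⟩)
    (by
      intro l hl l' hl'
      obtain ⟨y, hy, rfl⟩ := Finset.mem_image.1 hl
      simp only [List.map_map, List.mem_map, Function.comp] at hl'
      obtain ⟨m, hm, rfl⟩ := hl'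
      refine Finset.mem_image.2 ⟨m y, ?_, by simp [mulL]⟩
      simp only [Finset.mem_filter, Finset.mem_univ, true_and] at hy ⊢
      exact (OP_inv (le_OP _ (Subgroup.subset_closure hm)) x y).2 hy)
  constructor
  · intro h
    obtain ⟨y', hy, e⟩ := Finset.mem_image.1 (h1 _ h)
    simp only [List.cons.injEq, and_true, Fin.val_inj] at e
    subst e
    simpa using hy
  · rintro ⟨m, hm, rfl⟩
    have := closure_sub (W := {m : Perm (Fin n) | ∀ y : Fin n,
      [y.val] ∈ orbL n (gN.map tab) x → [(m y).val] ∈ orbL n (gN.map tab) x})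
      (fun y h => h) (fun a ha b hb y h => ha _ (hb y h))
      (fun m hm y h => h3 _ h _ (by
        simp only [List.map_map, List.mem_map, Function.comp]
        exact ⟨m, hm, by simp [mulL]⟩)) hm
    exact this x (h2 _ (by simp))

theorem idbL_eq (gN : List (Perm (Fin n))) (x : Fin n) :
    idbL n (gN.map tab) x = pm (orb (gen gN) x) 1 := by
  rw [idbL, range_map_eq, pm]
  congr 1
  funext y
  rw [← mem_orbL]
  by_cases h : [y.val] ∈ orbL n (gN.map tab) x
  · have : (orbL n (gN.map tab) x).any (fun l => eqb l [y.val]) = true := by simpa using h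
    rw [this, if_pos h]; rfl
  · have : (orbL n (gN.map tab) x).any (fun l => eqb l [y.val]) = false := by
      rw [← Bool.not_eq_true]; simpa using h
    rw [this, if_neg h]; rfl

theorem orbit_eq_orb (N : Subgroup (Perm (Fin n))) (x : Fin n) : MulAction.orbit N x = orb N x := by
  ext y
  constructor
  · rintro ⟨m, rfl⟩; exact ⟨m, m.2, rfl⟩
  · rintro ⟨m, hm, rfl⟩; exact ⟨⟨m, hm⟩, rfl⟩

theorem usL_spec {s : ℕ} (gN : List (Perm (Fin n))) (hs : SmallConstituents s (gen gN)) :
    (usL n s (gN.map tab)).Nodup ∧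
      ∀ ν, ν ∈ usL n s (gN.map tab) ↔ ∃ x, ∃ m ∈ gen gN, ν = pm (orb (gen gN) x) m := by
  let R : Finset (List ℕ) := Finset.univ.biUnion fun x : Fin n =>
    Finset.univ.image fun m : gen gN => pm (orb (gen gN) x) m
  have hR : ∀ ν, ν ∈ R ↔ ∃ x, ∃ m ∈ gen gN, ν = pm (orb (gen gN) x) m := by
    intro ν; simp [R, eq_comm]
  have hc : R.card ≤ n * s := by
    refine (Finset.card_biUnion_le_card_mul _ _ s fun x _ => ?_).trans (by simp)
    refine le_trans ?_ (hs x)
    set H := (fixingSubgroup (Perm (Fin n)) (MulAction.orbit (gen gN) x)).subgroupOf (gen gN)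
    have : (Finset.univ.image fun m : gen gN => pm (orb (gen gN) x) m) ⊆
        Finset.univ.image fun q : gen gN ⧸ H => pm (orb (gen gN) x) (q.out : gen gN) := by
      intro ν hν
      obtain ⟨m, -, rfl⟩ := Finset.mem_image.1 hν
      refine Finset.mem_image.2 ⟨m, Finset.mem_univ _, ?_⟩
      obtain ⟨h, hh⟩ := QuotientGroup.mk_out_eq_mul H m
      rw [hh]
      unfold pm
      congr 1
      funext y
      split_ifs with hy
      · have := (mem_fixingSubgroup_iff _).1 (Subgroup.mem_subgroupOf.1 h.2) y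
          (by rwa [orbit_eq_orb])
        simp only [Subgroup.coe_mul, Perm.mul_apply]
        rw [show ((h : gen gN) : Perm (Fin n)) y = y from this]
      · rfl
    refine (Finset.card_le_card this).trans (Finset.card_image_le.trans ?_)
    rw [Finset.card_univ, ← Nat.card_eq_fintype_card]
    rfl
  obtain ⟨h0, h1, h2, h3⟩ := clos_spec (M := n * s + n)
    (step := fun l => (gN.map tab).map fun m => mulL m l)
    (init := (List.range n).map fun x => idbL n (gN.map tab) x) R (by omega)
    (by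
      intro l hl
      obtain ⟨x, m, -, rfl⟩ := (hR l).1 hl
      refine ⟨by simp [pm], fun a ha => ?_⟩
      simp only [pm, List.mem_ofFn] at ha
      obtain ⟨y, rfl⟩ := ha
      have := (m y).2
      split_ifs <;> omega)
    (by
      intro l hl
      obtain ⟨x, hx, rfl⟩ := List.mem_map.1 hl
      exact (hR _).2 ⟨⟨x, List.mem_range.1 hx⟩, 1, one_mem _, idbL_eq gN ⟨x, List.mem_range.1 hx⟩⟩)
    (by
      intro l hl l' hl'
      obtain ⟨x, m, hm, rfl⟩ := (hR l).1 hl
      simp only [List.map_map, List.mem_map, Function.comp] at hl'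
      obtain ⟨m', hm', rfl⟩ := hl'
      exact (hR _).2 ⟨x, m' * m, mul_mem (Subgroup.subset_closure hm') hm, mulL_pm _ _ _⟩)
  refine ⟨h0, fun ν => ⟨fun h => (hR ν).1 (h1 ν h), ?_⟩⟩
  rintro ⟨x, m, hm, rfl⟩
  have := closure_sub (W := {m : Perm (Fin n) | ∀ m0 : Perm (Fin n),
    pm (orb (gen gN) x) m0 ∈ usL n s (gN.map tab) →
      pm (orb (gen gN) x) (m * m0) ∈ usL n s (gN.map tab)})
    (fun y h => by simpa using h) (fun a ha b hb y h => by
      rw [mul_assoc]; exact ha _ (hb y h))
    (fun m hm y h => h3 _ h _ (by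
      simp only [List.map_map, List.mem_map, Function.comp]
      exact ⟨m, hm, mulL_pm _ _ _⟩)) hm
  simpa using this 1 (h2 _ (List.mem_map.2 ⟨x, List.mem_range.2 x.2, idbL_eq gN x⟩))

theorem exists_local {s : ℕ} (gN : List (Perm (Fin n))) (hs : SmallConstituents s (gen gN)) :
    ∃ (dom : Fin (usL n s (gN.map tab)).length → Set (Fin n))
      (mu : Fin (usL n s (gN.map tab)).length → Perm (Fin n)),
      (∀ k, ∃ x, ∃ m ∈ gen gN, dom k = orb (gen gN) x ∧ mu k = res (orb (gen gN) x) m) ∧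
      (∀ x, ∀ m ∈ gen gN, ∃ k, dom k = orb (gen gN) x ∧ mu k = res (orb (gen gN) x) m) ∧
      (∀ k k', dom k = dom k' → mu k = mu k' → k = k') ∧
      ∀ (k : Fin (usL n s (gN.map tab)).length) (y : Fin n),
        ((usL n s (gN.map tab)).getD k []).getD y n =
        if y ∈ dom k then (mu k y : ℕ) else n := by
  obtain ⟨h0, h1⟩ := usL_spec gN hs
  choose x m hm e using fun k : Fin (usL n s (gN.map tab)).length =>
    (h1 _).1 (List.getElem_mem k.2)
  have hp : ∀ x, ∀ m ∈ gen gN, pm (orb (gen gN) x) (res (orb (gen gN) x) m) =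
      pm (orb (gen gN) x) m := by
    intro x m hm
    unfold pm
    congr 1
    funext y
    split_ifs with hy
    · rw [res_mem (OP_inv (le_OP _ hm) x) hy]
    · rfl
  refine ⟨fun k => orb (gen gN) (x k), fun k => res (orb (gen gN) (x k)) (m k),
    fun k => ⟨x k, m k, hm k, rfl, rfl⟩, fun z p hp' => ?_, fun k k' a b => ?_, fun k y => ?_⟩
  · obtain ⟨k, hk, e'⟩ := List.getElem_of_mem ((h1 _).2 ⟨z, p, hp', rfl⟩)
    have e2 := (e ⟨k, hk⟩).symm.trans e'
    have e3 := fun y : Fin n => (getD_pm _ _ y).symm.trans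
      ((congrArg (fun l : List ℕ => l.getD y n) e2).trans (getD_pm _ _ y))
    have e4 : orb (gen gN) (x ⟨k, hk⟩) = orb (gen gN) z := by
      ext y
      have := e3 y
      have h2 := (m ⟨k, hk⟩ y).2
      have h3 := (p y).2
      split_ifs at this <;> first | omega | simp_all
    refine ⟨⟨k, hk⟩, e4, ?_⟩
    simp only [e4] at e3 ⊢
    refine res_eq_of (fun y hy => res_not _ hy) fun y hy => ?_
    have := e3 y
    rw [if_pos hy, if_pos hy] at this
    rw [res_mem (OP_inv (le_OP _ (hm _)) z) hy]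
    exact Fin.ext this
  · apply Fin.ext
    apply (List.Nodup.getElem_inj_iff h0).1
    rw [e, e, ← hp _ _ (hm k), ← hp _ _ (hm k')]
    simp only at a b
    rw [b, a]
  · rw [List.getD_eq_getElem _ _ k.2, e, ← hp _ _ (hm k), getD_pm]

def prA (a b : Perm (Fin n)) : Perm (Fin (n + n)) := finSumFinEquiv.permCongr (sumCongr a b)

theorem prA_left (a b : Perm (Fin n)) (x : Fin n) : prA a b (Fin.castAdd n x) = Fin.castAdd n (a x) := by
  simp [prA]

theorem prA_right (a b : Perm (Fin n)) (x : Fin n) : prA a b (Fin.natAdd n x) = Fin.natAdd n (b x) := by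
  simp [prA, -Fin.natAdd_eq_addNat]

theorem prA_mul (a b c e : Perm (Fin n)) : prA a b * prA c e = prA (a * c) (b * e) := by
  ext x
  induction x using Fin.addCases <;> simp only [Perm.mul_apply, prA_left, prA_right]

theorem prA_one : prA (1 : Perm (Fin n)) 1 = 1 := by
  ext x
  induction x using Fin.addCases <;> simp only [Perm.one_apply, prA_left, prA_right]

theorem prA_inv (a b : Perm (Fin n)) : (prA a b)⁻¹ = prA a⁻¹ b⁻¹ := by
  rw [inv_eq_iff_mul_eq_one, prA_mul]; simp [prA_one]

theorem tab_prA (a b : Perm (Fin n)) : tab (prA a b) = pairL n (tab a) (tab b) := by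
  rw [tab, List.ofFn_add, pairL, tab, tab, List.map_ofFn]
  congr 1
  · congr 1; funext i; exact congrArg Fin.val (prA_left a b i)
  · congr 1; funext i; exact congrArg Fin.val (prA_right a b i)

theorem interL_spec (τs gens : List (Perm (Fin n)))
    (h : gen τs ≤ Subgroup.normalizer (gen gens : Set (Perm (Fin n)))) :
    ∃ out : List (Perm (Fin n)), interL n (τs.map tab) (gens.map tab) = out.map tab ∧
      gen out = gen τs ⊓ gen gens := by
  set g2 := (τs.map fun t => prA t t) ++ gens.map fun g => prA 1 g with hg2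
  set pre := (List.finRange n).map (Fin.natAdd n) with hpre
  have e1 : ((τs.map tab).map fun t => pairL n t t) ++
      ((gens.map tab).map fun g => pairL n (List.range n) g) = g2.map tab := by
    simp [hg2, Function.comp_def, tab_prA, tab_one]
  have e2 : ((List.range n).map fun x => n + x) = pre.map Fin.val := by
    rw [hpre, ← List.map_coe_finRange_eq_range, List.map_map, List.map_map]; rfl
  have hfx : ∀ a b : Perm (Fin n), Fx pre (prA a b) ↔ b = 1 := by
    intro a b
    simp only [Fx, hpre, List.mem_map, List.mem_finRange, true_and, forall_exists_index,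
      forall_apply_eq_imp_iff, prA_right, Perm.ext_iff, Perm.one_apply]
    exact forall_congr' fun x => (Fin.natAdd_injective _ _).eq_iff
  have h1 : ∀ t ∈ gen g2, ∃ l ∈ gen τs, ∃ g ∈ gen gens, t = prA l (l * g) := by
    intro t ht
    refine closure_sub (W := {t | ∃ l ∈ gen τs, ∃ g ∈ gen gens, t = prA l (l * g)})
      ⟨1, one_mem _, 1, one_mem _, by simp [prA_one]⟩ ?_ ?_ ht
    · rintro _ ⟨l, hl, g, hg, rfl⟩ _ ⟨l', hl', g', hg', rfl⟩
      refine ⟨l * l', mul_mem hl hl', l'⁻¹ * g * l'⁻¹⁻¹ * g', mul_mem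
        ((Subgroup.mem_normalizer_iff.1 (h (inv_mem hl')) g).1 hg) hg', ?_⟩
      rw [prA_mul]; congr 1; group
    · intro t ht
      simp only [hg2, List.mem_append, List.mem_map, Set.mem_ofPred_eq] at ht
      rcases ht with ⟨a, ha, rfl⟩ | ⟨a, ha, rfl⟩
      · exact ⟨a, Subgroup.subset_closure ha, 1, one_mem _, by simp⟩
      · exact ⟨1, one_mem _, a, Subgroup.subset_closure ha, by simp⟩
  have h2 : ∀ l ∈ gen τs, prA l l ∈ gen g2 := by
    intro l hl
    refine closure_sub (W := {l | prA l l ∈ gen g2}) (by simp [prA_one]) ?_ ?_ hl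
    · intro a ha b hb
      have := (gen g2).mul_mem ha hb
      rwa [prA_mul] at this
    · intro a ha
      exact Subgroup.subset_closure (List.mem_append_left _ (List.mem_map.2 ⟨a, ha, rfl⟩))
  have h3 : ∀ l ∈ gen gens, prA 1 l ∈ gen g2 := by
    intro l hl
    refine closure_sub (W := {l | prA 1 l ∈ gen g2}) (by simp [prA_one]) ?_ ?_ hl
    · intro a ha b hb
      have := (gen g2).mul_mem ha hb
      rwa [prA_mul, one_mul] at this
    · intro a ha
      exact Subgroup.subset_closure (List.mem_append_right _ (List.mem_map.2 ⟨a, ha, rfl⟩))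
  have h4 : ∀ t ∈ gen (stabA g2 pre), ∃ l, l ∈ gen τs ⊓ gen gens ∧ t = prA l 1 := by
    intro t ht
    obtain ⟨a, b⟩ := (mem_gen_stabA _ _ _).1 ht
    obtain ⟨l, hl, g, hg, rfl⟩ := h1 t a
    rw [hfx] at b
    refine ⟨l, ⟨hl, ?_⟩, by rw [b]⟩
    rw [eq_inv_of_mul_eq_one_left b]; exact (gen gens).inv_mem hg
  choose! f hf1 hf2 using h4
  have hst : ∀ t ∈ stabA g2 pre, t ∈ gen (stabA g2 pre) := fun t ht => Subgroup.subset_closure ht
  refine ⟨(stabA g2 pre).map f, ?_, le_antisymm ?_ ?_⟩
  · rw [interL, e1, e2, stabL_tab, List.map_map, List.map_map]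
    refine List.map_congr_left fun t ht => ?_
    simp only [Function.comp]
    conv_lhs => rw [hf2 t (hst t ht), tab_prA, pairL]
    simp
  · rw [gen, Subgroup.closure_le]
    intro l hl
    obtain ⟨t, ht, rfl⟩ := List.mem_map.1 hl
    exact hf1 t (hst t ht)
  · rintro l ⟨a, b⟩
    have hl : prA l 1 ∈ gen (stabA g2 pre) := by
      rw [mem_gen_stabA, hfx]
      refine ⟨?_, rfl⟩
      have := mul_mem (h2 l a) (h3 _ (inv_mem b))
      rwa [prA_mul, mul_one, mul_inv_cancel] at this
    have inj : ∀ a b : Perm (Fin n), prA a 1 = prA b 1 → a = b := by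
      intro a b h
      ext x
      have := congrArg (fun p : Perm (Fin (n + n)) => (p (Fin.castAdd n x)).val) h
      simpa [prA_left] using this
    obtain ⟨l', h5, h6⟩ := closure_sub
      (W := {t | ∃ l ∈ gen ((stabA g2 pre).map f), t = prA l 1})
      ⟨1, one_mem _, prA_one.symm⟩
      (by
        rintro _ ⟨a, ha, rfl⟩ _ ⟨b, hb, rfl⟩
        exact ⟨a * b, mul_mem ha hb, by rw [prA_mul, one_mul]⟩)
      (fun t ht => ⟨f t, Subgroup.subset_closure (List.mem_map.2 ⟨t, ht, rfl⟩), hf2 t (hst t ht)⟩) hl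
    rw [inj _ _ h6]; exact h5

end

end Pool.Agent.Lib.MP_e519cf_lc
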