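import Mathlib

/-! The abstract gadget: a permutation group `HH` whose normaliser in the full symmetric group sees
a coloured incidence structure `(X, E, inc, col)` and a group `H1` of `X`-tuples of permutations. -/

namespace Pool.Agent.Lib.MP_e519cf_lc

open Equiv Finset

theorem ais {α : Type} (f : Perm α) (x : α) : f (f⁻¹ x) = x := f.apply_symm_apply x
theorem ias {α : Type} (f : Perm α) (x : α) : f⁻¹ (f x) = x := f.symm_apply_apply x

abbrev Pt (X E Z : Type) (B : ℕ) : Type :=
  (X × Z × ZMod 2) ⊕ (X × Z × Fin B) ⊕ (E × Fin B × ZMod 2)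

abbrev Amb (X E Z : Type) : Type := (X → Perm Z) × Multiplicative (E → ZMod 2)

section
variable {X E Z : Type} [Fintype X] [Fintype E] [Fintype Z] [DecidableEq X] [DecidableEq E]
  [DecidableEq Z] (inc : E → X → Prop) [DecidableRel inc] (pv : E → ℕ) (B : ℕ)

def act (a : Amb X E Z) : Pt X E Z B → Pt X E Z B
  | .inl (x, z, ε) => .inl (x, a.1 x z, ε + ∑ e, if inc e x then a.2.toAdd e else 0)
  | .inr (.inl (x, z, j)) => .inr (.inl (x, a.1 x z, j))
  | .inr (.inr (e, j, ε)) => .inr (.inr (e, j, ε + if (j : ℕ) < pv e then a.2.toAdd e else 0))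

omit [Fintype X] [Fintype Z] [DecidableEq X] [DecidableEq E] [DecidableEq Z] in
theorem act_one (y : Pt X E Z B) : act inc pv B 1 y = y := by
  rcases y with ⟨x, z, ε⟩ | ⟨x, z, j⟩ | ⟨e, j, ε⟩ <;> simp [act]

omit [Fintype X] [Fintype Z] [DecidableEq X] [DecidableEq E] [DecidableEq Z] in
theorem act_mul (a b : Amb X E Z) (y : Pt X E Z B) :
    act inc pv B (a * b) y = act inc pv B a (act inc pv B b y) := by
  rcases y with ⟨x, z, ε⟩ | ⟨x, z, j⟩ | ⟨e, j, ε⟩
  · simp only [act, Prod.fst_mul, Pi.mul_apply, Perm.mul_apply, Prod.snd_mul, toAdd_mul,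
      Pi.add_apply, Sum.inl.injEq, Prod.mk.injEq, true_and]
    rw [add_assoc, ← Finset.sum_add_distrib]
    congr 1
    refine Finset.sum_congr rfl fun e _ => ?_
    split_ifs <;> simp [add_comm]
  · simp [act]
  · simp only [act, Prod.snd_mul, toAdd_mul, Pi.add_apply, Sum.inr.injEq, Prod.mk.injEq, true_and]
    split_ifs <;> simp [add_comm, add_left_comm]

def Phi : Amb X E Z →* Perm (Pt X E Z B) :=
  MonoidHom.toHomPerm
    { toFun := fun a => act inc pv B a
      map_one' := funext (act_one inc pv B)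
      map_mul' := fun a b => funext (act_mul inc pv B a b) }

omit [Fintype X] [Fintype Z] [DecidableEq X] [DecidableEq E] [DecidableEq Z] in
theorem Phi_apply (a : Amb X E Z) (y : Pt X E Z B) : Phi inc pv B a y = act inc pv B a y := rfl

def row (e : E) : Perm (Pt X E Z B) := Phi inc pv B (1, Multiplicative.ofAdd (Pi.single e 1))

omit [Fintype X] [Fintype Z] [DecidableEq X] [DecidableEq Z] in
theorem row_cell (e : E) (x : X) (z : Z) (ε : ZMod 2) :
    row inc pv B e (.inl (x, z, ε)) = .inl (x, z, ε + if inc e x then 1 else 0) := by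
  simp only [row, Phi_apply, act, Pi.one_apply, Perm.one_apply, toAdd_ofAdd, Sum.inl.injEq,
    Prod.mk.injEq, true_and, add_right_inj]
  rw [Finset.sum_eq_single e]
  · simp
  · intro b _ hb; simp [hb]
  · simp

omit [Fintype X] [Fintype Z] [DecidableEq X] [DecidableEq Z] in
theorem row_pad (e : E) (x : X) (z : Z) (j : Fin B) :
    row inc pv B e (.inr (.inl (x, z, j))) = .inr (.inl (x, z, j)) := by
  simp [row, Phi_apply, act]

omit [Fintype X] [Fintype Z] [DecidableEq X] [DecidableEq Z] in
theorem row_priv (e e' : E) (j : Fin B) (ε : ZMod 2) :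
    row (Z := Z) inc pv B e (.inr (.inr (e', j, ε))) =
      .inr (.inr (e', j, ε + if e' = e ∧ (j : ℕ) < pv e then 1 else 0)) := by
  simp only [row, Phi_apply, act, toAdd_ofAdd, Sum.inr.injEq, Prod.mk.injEq, true_and,
    add_right_inj, Pi.single_apply]
  by_cases h : e' = e
  · subst h; simp
  · simp [h]

theorem card_support_row (e : E) (h : pv e ≤ B) :
    (row (Z := Z) inc pv B e).support.card =
      2 * (pv e + Fintype.card Z * #{x | inc e x}) := by
  rw [Perm.support, Finset.card_filter]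
  simp only [Fintype.sum_sum_type, Fintype.sum_prod_type, row_cell, row_pad, row_priv]
  have h1 : ∀ (p : Prop) [Decidable p] (ε : ZMod 2), (ε + (if p then 1 else 0) = ε) = ¬ p := by
    intro p _ ε
    by_cases hp : p <;> simp [hp]
  simp only [ne_eq, Sum.inl.injEq, Prod.mk.injEq, true_and, Sum.inr.injEq, h1, not_not,
    not_true_eq_false, if_false, Finset.sum_const_zero, zero_add, Finset.sum_const,
    Finset.card_univ, ZMod.card, smul_eq_mul]
  have h2 : ∑ x : E, ∑ j : Fin B, 2 * (if x = e ∧ (j : ℕ) < pv e then 1 else 0) = 2 * pv e := by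
    rw [Finset.sum_eq_single e]
    · simp only [true_and]
      rw [← Finset.mul_sum, ← Finset.card_filter, Fin.card_filter_val_lt, min_eq_right h]
    · intro b _ hb; simp [hb]
    · simp
  rw [h2, ← Finset.mul_sum, ← Finset.mul_sum, ← Finset.card_filter]
  ring

theorem card_support_pad (a : Amb X E Z) (h : a.1 ≠ 1) : B ≤ (Phi inc pv B a).support.card := by
  obtain ⟨x, hx⟩ := Function.ne_iff.1 h
  obtain ⟨z, hz⟩ : ∃ z, a.1 x z ≠ z := by
    by_contra hc
    push Not at hc
    exact hx (Equiv.ext hc)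
  have : (Finset.univ : Finset (Fin B)).card ≤ (Phi inc pv B a).support.card := by
    refine Finset.card_le_card_of_injOn (fun j => .inr (.inl (x, z, j))) ?_ ?_
    · intro j _
      simp [Phi_apply, act, hz]
    · intro j _ j' _ hj
      simpa using hj
  simpa using this

theorem card_support_two (a : Amb X E Z) {e e' : E} (hne : e ≠ e') (h : a.2.toAdd e ≠ 0)
    (h' : a.2.toAdd e' ≠ 0) (hB : pv e ≤ B) (hB' : pv e' ≤ B) :
    2 * pv e + 2 * pv e' ≤ (Phi inc pv B a).support.card := by
  let F : E → Finset (Pt X E Z B) := fun e =>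
    ((Finset.univ.filter fun j : Fin B => (j : ℕ) < pv e) ×ˢ (Finset.univ : Finset (ZMod 2))).image
      fun p => .inr (.inr (e, p.1, p.2))
  have hc : ∀ e, pv e ≤ B → (F e).card = 2 * pv e := by
    intro e he
    rw [Finset.card_image_of_injective, Finset.card_product, Fin.card_filter_val_lt,
      min_eq_right he]
    · simp [mul_comm]
    · intro p q hpq
      simpa [Prod.ext_iff] using hpq
  have hs : ∀ e, a.2.toAdd e ≠ 0 → F e ⊆ (Phi inc pv B a).support := by
    intro e he y hy
    simp only [F, Finset.mem_image, Finset.mem_product, Finset.mem_filter, Finset.mem_univ,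
      true_and, and_true] at hy
    obtain ⟨p, hp, rfl⟩ := hy
    simp [Phi_apply, act, hp, he, Prod.ext_iff]
  have hd : Disjoint (F e) (F e') := by
    rw [Finset.disjoint_left]
    intro y hy hy'
    simp only [F, Finset.mem_image] at hy hy'
    obtain ⟨p, -, rfl⟩ := hy
    obtain ⟨q, -, hq⟩ := hy'
    simp at hq
    exact hne hq.1.symm
  rw [← hc e hB, ← hc e' hB', ← Finset.card_union_of_disjoint hd]
  exact Finset.card_le_card (Finset.union_subset (hs e h) (hs e' h'))

omit [Fintype X] [Fintype Z] [DecidableEq X] [DecidableEq E] [DecidableEq Z] in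
theorem Phi_injective (h1 : ∀ e, 1 ≤ pv e) (hB : 1 ≤ B) :
    Function.Injective (Phi (Z := Z) inc pv B) := by
  rw [injective_iff_map_eq_one]
  intro a ha
  have h := fun y => congrArg (fun ψ : Perm (Pt X E Z B) => ψ y) ha
  simp only [Phi_apply, Perm.one_apply] at h
  ext x z
  · have := h (.inr (.inl (x, z, ⟨0, hB⟩)))
    simpa [act] using this
  · have := h (.inr (.inr (x, ⟨0, hB⟩, 0)))
    have h0 : 0 < pv x := h1 x
    simpa [act, h0] using this

end

section
variable {X E Z : Type} [Fintype X] [Fintype E] [Fintype Z] [DecidableEq X] [DecidableEq E]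
  [DecidableEq Z] (inc : E → X → Prop) [DecidableRel inc] (col : E → ℕ) (T : ℕ)
  (H1 : Subgroup (X → Perm Z))

/-- number of private points of a row -/
def pvf (col : E → ℕ) (T : ℕ) (e : E) : ℕ := (8 + col e) * T

abbrev Ph : Amb X E Z →* Perm (Pt X E Z (32 * T)) := Phi inc (pvf col T) (32 * T)

abbrev rw' (e : E) : Perm (Pt X E Z (32 * T)) := row inc (pvf col T) (32 * T) e

/-- The gadget group. -/
def HH : Subgroup (Perm (Pt X E Z (32 * T))) := (H1.prod ⊤).map (Ph inc col T)

variable {col T}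

omit [Fintype X] [Fintype E] [Fintype Z] [DecidableEq X] [DecidableEq E] [DecidableEq Z] in
theorem pvf_le (hc : ∀ e, col e < 8) (e : E) : pvf col T e ≤ 32 * T := by
  have := hc e
  unfold pvf; nlinarith

omit [DecidableEq X] [DecidableEq Z] [Fintype E] [DecidableEq E] in
theorem inc_lt (hT : Fintype.card Z * Fintype.card X < T) (e : E) :
    Fintype.card Z * #{x | inc e x} < T :=
  lt_of_le_of_lt (Nat.mul_le_mul_left _ (Finset.card_le_univ _)) hT

theorem row_of_small (hc : ∀ e, col e < 8) (hT : Fintype.card Z * Fintype.card X < T)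
    {η : Perm (Pt X E Z (32 * T))} (hη : η ∈ HH inc col T H1) (e : E)
    (hs : η.support.card = (rw' (Z := Z) inc col T e).support.card) :
    ∃ e', η = rw' inc col T e' ∧ col e' = col e := by
  obtain ⟨a, -, rfl⟩ := hη
  have hw := card_support_row (Z := Z) inc (pvf col T) (32 * T) e (pvf_le hc e)
  have h1 := inc_lt inc hT e
  have hce := hc e
  have hlt : (Ph inc col T a).support.card < 32 * T := by
    rw [hs, hw]; unfold pvf; nlinarith
  have hpos : 0 < (Ph inc col T a).support.card := by
    rw [hs, hw]; unfold pvf; nlinarith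
  have ha1 : a.1 = 1 := by
    by_contra h
    exact absurd (card_support_pad inc (pvf col T) (32 * T) a h) (not_le.2 hlt)
  obtain ⟨e', he'⟩ : ∃ e', a.2.toAdd e' ≠ 0 := by
    by_contra h
    push Not at h
    have : a = 1 := Prod.ext ha1 (by ext e; simpa using h e)
    rw [this, map_one] at hpos
    simp at hpos
  have ha : a = (1, Multiplicative.ofAdd (Pi.single e' 1)) := by
    refine Prod.ext ha1 ?_
    apply Multiplicative.toAdd.injective
    funext e''
    by_cases h : e'' = e'
    · subst h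
      have : ∀ u : ZMod 2, u ≠ 0 → u = 1 := by decide
      simpa using this _ he'
    · by_contra hne
      have hne' : a.2.toAdd e'' ≠ 0 := by simpa [h] using hne
      have := card_support_two inc (pvf col T) (32 * T) a h hne' he' (pvf_le hc _) (pvf_le hc _)
      have h3 := lt_of_le_of_lt this hlt
      unfold pvf at h3
      nlinarith [Nat.zero_le (col e'' * T), Nat.zero_le (col e' * T)]
  refine ⟨e', by rw [ha]; rfl, ?_⟩
  have hw' := card_support_row (Z := Z) inc (pvf col T) (32 * T) e' (pvf_le hc e')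
  have h2 := inc_lt inc hT e'
  have : (rw' (Z := Z) inc col T e').support.card = (rw' (Z := Z) inc col T e).support.card := by
    rw [← hs, ha]; rfl
  rw [hw, hw'] at this
  unfold pvf at this
  rcases lt_trichotomy (col e') (col e) with h | h | h
  · nlinarith
  · exact h
  · nlinarith

omit [Fintype X] [Fintype Z] [DecidableEq X] [DecidableEq Z] in
theorem row_mem (e : E) : rw' (Z := Z) inc col T e ∈ HH inc col T H1 :=
  ⟨_, ⟨H1.one_mem, trivial⟩, rfl⟩

theorem exists_theta (hc : ∀ e, col e < 8) (hT : Fintype.card Z * Fintype.card X < T)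
    {ω : Perm (Pt X E Z (32 * T))} (hω : ω ∈ Subgroup.normalizer (HH inc col T H1 : Set _)) (e : E) :
    ∃ e', ω * rw' inc col T e * ω⁻¹ = rw' inc col T e' ∧ col e' = col e :=
  row_of_small inc H1 hc hT ((Subgroup.mem_normalizer_iff.1 hω _).1 (row_mem inc H1 e)) e
    (Perm.card_support_conj)

omit [Fintype X] [Fintype Z] [DecidableEq X] [DecidableEq Z] in
theorem row_inj (hT : 0 < T) {e e' : E}
    (h : rw' (Z := Z) inc col T e = rw' (Z := Z) inc col T e') : e = e' := by
  have h0 : 0 < 32 * T := by omega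
  have h1 : 0 < pvf col T e := by unfold pvf; positivity
  have := congrArg (fun ψ : Perm (Pt X E Z (32 * T)) => ψ (.inr (.inr (e, ⟨0, h0⟩, 0)))) h
  simp only [row_priv] at this
  by_contra hne
  simp [hne, h1] at this

omit [Fintype X] [Fintype Z] [DecidableEq X] [DecidableEq Z] in
theorem meets_iff [Nonempty Z] {e s : E} {x : X} (hs : ∀ x', inc s x' ↔ x' = x) :
    (∃ y, rw' (Z := Z) inc col T e y ≠ y ∧ rw' (Z := Z) inc col T s y ≠ y) ↔ inc e x := by
  constructor
  · rintro ⟨y, h1, h2⟩
    rcases y with ⟨x', z, ε⟩ | ⟨x', z, j⟩ | ⟨e', j, ε⟩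
    · simp only [row_cell, ne_eq, Sum.inl.injEq, Prod.mk.injEq, true_and, add_eq_left,
        ite_eq_right_iff, one_ne_zero, imp_false, not_not] at h1 h2
      rwa [← (hs x').1 h2]
    · simp [row_pad] at h1
    · simp only [row_priv, ne_eq, Sum.inr.injEq, Prod.mk.injEq, true_and, add_eq_left,
        ite_eq_right_iff, one_ne_zero, imp_false, not_not] at h1 h2
      rw [← h1.1, h2.1, hs]
  · intro h
    refine ⟨.inl (x, Classical.arbitrary Z, 0), ?_, ?_⟩ <;> simp [row_cell, h, hs]

omit [Fintype X] [Fintype Z] [DecidableEq X] [DecidableEq Z] in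
theorem inc_conj [Nonempty Z] {ω : Perm (Pt X E Z (32 * T))} {e e' s s' : E} {x x' : X}
    (hs : ∀ y, inc s y ↔ y = x) (hs' : ∀ y, inc s' y ↔ y = x')
    (h1 : ω * rw' inc col T e * ω⁻¹ = rw' inc col T e')
    (h2 : ω * rw' inc col T s * ω⁻¹ = rw' inc col T s') : inc e' x' ↔ inc e x := by
  rw [← meets_iff inc (col := col) (T := T) (Z := Z) hs,
    ← meets_iff inc (col := col) (T := T) (Z := Z) hs', ← h1, ← h2]
  constructor
  · rintro ⟨y, a, b⟩
    refine ⟨ω⁻¹ y, fun h => a ?_, fun h => b ?_⟩ <;>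
      rw [Perm.mul_apply, Perm.mul_apply, h, ais]
  · rintro ⟨y, a, b⟩
    refine ⟨ω y, ?_, ?_⟩ <;> simpa

/-- Elements acting on the cells over `S` like the rows `sing x`. -/
def KerS (sing : X → E) (S : Set X) : Set (Perm (Pt X E Z (32 * T))) :=
  {η | ∀ x ∈ S, ∀ y, rw' inc col T (sing x) y ≠ y → η y = y ∨ η y = rw' inc col T (sing x) y}

omit [Fintype X] [Fintype Z] [DecidableEq X] [DecidableEq Z] in
theorem mem_KerS {sing : X → E} (hs : ∀ x y, inc (sing x) y ↔ y = x) (S : Set X) (a : Amb X E Z) :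
    Ph inc col T a ∈ KerS inc (col := col) (T := T) sing S ↔ ∀ x ∈ S, a.1 x = 1 := by
  have key : ∀ u c : ZMod 2, u + c = u ∨ u + c = u + 1 := by decide
  constructor
  · intro h x hx
    ext z
    have := h x hx (.inl (x, z, 0)) (by simp [row_cell, hs])
    simp only [Phi_apply, act, row_cell, Sum.inl.injEq, Prod.mk.injEq, true_and] at this
    rcases this with h | h <;> exact h.1
  · intro h x hx y hy
    rcases y with ⟨x', z, ε⟩ | ⟨x', z, j⟩ | ⟨e', j, ε⟩
    · simp only [row_cell, ne_eq, Sum.inl.injEq, Prod.mk.injEq, true_and, add_eq_left,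
        ite_eq_right_iff, one_ne_zero, imp_false, not_not] at hy
      have hx' := (hs _ _).1 hy
      subst hx'
      simp only [Phi_apply, act, row_cell, h _ hx, Perm.one_apply, Sum.inl.injEq, Prod.mk.injEq,
        true_and, hy, if_true]
      exact key _ _
    · simp [row_pad] at hy
    · simp only [row_priv, ne_eq, Sum.inr.injEq, Prod.mk.injEq, true_and, add_eq_left,
        ite_eq_right_iff, one_ne_zero, imp_false, not_not] at hy
      simp only [Phi_apply, act, row_priv, Sum.inr.injEq, Prod.mk.injEq, true_and, hy, and_self,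
        if_true]
      exact key _ _

omit [DecidableEq X] [DecidableEq Z] [Fintype X] [Fintype Z] in
theorem card_KerS (hT : 0 < T) {sing : X → E} (hs : ∀ x y, inc (sing x) y ↔ y = x) (S : Set X) :
    Nat.card {η // η ∈ HH inc col T H1 ∧ η ∈ KerS inc (col := col) (T := T) sing S} =
      Nat.card (H1 ⊓ Subgroup.pi S (fun _ => ⊥) : Subgroup (X → Perm Z)) *
        Nat.card (Multiplicative (E → ZMod 2)) := by
  rw [← Nat.card_prod]
  symm
  have hinj := Phi_injective (Z := Z) inc (pvf col T) (32 * T)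
    (fun e => by unfold pvf; nlinarith) (by omega)
  refine Nat.card_congr (Equiv.ofBijective
    (fun p => ⟨Ph inc col T (p.1.1, p.2), ⟨_, ⟨p.1.2.1, trivial⟩, rfl⟩,
      (mem_KerS inc hs S _).2 fun x hx => Subgroup.mem_bot.1 (p.1.2.2 x hx)⟩) ⟨?_, ?_⟩)
  · intro p q h
    have := hinj (congrArg Subtype.val h)
    simp only [Prod.mk.injEq] at this
    exact Prod.ext (Subtype.ext this.1) this.2
  · rintro ⟨η, ⟨a, ha, rfl⟩, h⟩
    exact ⟨(⟨a.1, ha.1, fun x hx => Subgroup.mem_bot.2 ((mem_KerS inc hs S a).1 h x hx)⟩, a.2), rfl⟩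

omit [DecidableEq X] [DecidableEq Z] [Fintype X] [Fintype Z] in
theorem card_ker_conj (hT : 0 < T) {sing : X → E} (hs : ∀ x y, inc (sing x) y ↔ y = x)
    {ω : Perm (Pt X E Z (32 * T))} (hω : ω ∈ Subgroup.normalizer (HH inc col T H1 : Set _))
    {σ : X → X} (hσ : ∀ x, ω * rw' inc col T (sing x) * ω⁻¹ = rw' inc col T (sing (σ x)))
    (S : Set X) :
    Nat.card (H1 ⊓ Subgroup.pi S (fun _ => ⊥) : Subgroup (X → Perm Z)) =
      Nat.card (H1 ⊓ Subgroup.pi (σ '' S) (fun _ => ⊥) : Subgroup (X → Perm Z)) := by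
  have hpos : 0 < Nat.card (Multiplicative (E → ZMod 2)) := Nat.card_pos
  refine Nat.eq_of_mul_eq_mul_right hpos ?_
  rw [← card_KerS inc H1 hT hs (col := col), ← card_KerS inc H1 hT hs (col := col)]
  refine Nat.card_congr ((MulAut.conj ω).toEquiv.subtypeEquiv fun η => ?_)
  refine and_congr (Subgroup.mem_normalizer_iff.1 hω η) ?_
  simp only [KerS, Set.mem_ofPred_eq, Set.forall_mem_image, ← hσ]
  refine forall₂_congr fun x _ => ?_
  constructor
  · intro h y hy
    have := h (ω⁻¹ y) (fun h' => hy (by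
      rw [Perm.mul_apply, Perm.mul_apply, h', ais]))
    change (ω * η * ω⁻¹) y = y ∨ (ω * η * ω⁻¹) y = _
    simp only [Perm.mul_apply]
    rcases this with h | h
    · left; rw [h, ais]
    · right; rw [h]
  · intro h y hy
    simpa using h (ω y) (by simpa using hy)

/-- The lift of an automorphism of the data. -/
def liftP (σ : Perm X) (θ : Perm E) (a : Perm Z) : Perm (Pt X E Z (32 * T)) :=
  Equiv.sumCongr (σ.prodCongr (a.prodCongr (Equiv.refl _)))
    (Equiv.sumCongr (σ.prodCongr (a.prodCongr (Equiv.refl _))) (θ.prodCongr (Equiv.refl _)))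

omit [Fintype X] [Fintype Z] [DecidableEq X] [DecidableEq Z] [DecidableEq E] in
theorem liftP_conj {σ : Perm X} {θ : Perm E} (a : Perm Z) (hi : ∀ e x, inc (θ e) (σ x) ↔ inc e x)
    (hc : ∀ e, col (θ e) = col e) (b : Amb X E Z) :
    liftP σ θ a * Ph inc col T b * (liftP σ θ a)⁻¹ =
      Ph inc col T (fun x => a * b.1 (σ⁻¹ x) * a⁻¹,
        Multiplicative.ofAdd fun e => b.2.toAdd (θ⁻¹ e)) := by
  rw [mul_inv_eq_iff_eq_mul]
  ext y
  rcases y with ⟨x, z, ε⟩ | ⟨x, z, j⟩ | ⟨e, j, ε⟩
  · simp only [liftP, Perm.mul_apply, Phi_apply, act, Equiv.sumCongr_apply, Sum.map_inl,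
      Equiv.prodCongr_apply, Prod.map_apply, Equiv.coe_refl, id, ias,
      toAdd_ofAdd, Sum.inl.injEq, Prod.mk.injEq, true_and, add_right_inj]
    symm
    rw [← Equiv.sum_comp θ]
    simp [hi]
  · simp [liftP, Phi_apply, act]
  · simp [liftP, Phi_apply, act, pvf, hc]

omit [DecidableEq X] [DecidableEq Z] [DecidableEq E] in
theorem liftP_mem {σ : Perm X} {θ : Perm E} (a : Perm Z) (hi : ∀ e x, inc (θ e) (σ x) ↔ inc e x)
    (hc : ∀ e, col (θ e) = col e) (hH : ∀ h ∈ H1, (fun x => a * h (σ⁻¹ x) * a⁻¹) ∈ H1) :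
    liftP (T := T) σ θ a ∈ Subgroup.normalizer (HH inc col T H1 : Set _) := by
  classical
  refine Subgroup.mem_normalizer_fintype ?_
  rintro _ ⟨b, hb, rfl⟩
  rw [liftP_conj inc a hi hc]
  exact ⟨_, ⟨hH _ hb.1, trivial⟩, rfl⟩

omit [Fintype X] [Fintype Z] [DecidableEq X] [DecidableEq Z] in
theorem liftP_row {σ : Perm X} {θ : Perm E} (a : Perm Z) (hi : ∀ e x, inc (θ e) (σ x) ↔ inc e x)
    (hc : ∀ e, col (θ e) = col e) (e : E) :
    liftP σ θ a * rw' inc col T e * (liftP σ θ a)⁻¹ = rw' inc col T (θ e) := by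
  have := liftP_conj inc (T := T) a hi hc (1, Multiplicative.ofAdd (Pi.single e 1))
  refine this.trans ?_
  unfold rw' row
  congr 1
  refine Prod.ext (by funext x; simp) ?_
  simp only
  congr 1
  funext e'
  simp [Pi.single_apply, Equiv.symm_apply_eq]

omit [Fintype X] [Fintype Z] [DecidableEq X] [DecidableEq Z] in
theorem HH_closure (s : Set (X → Perm Z)) :
    HH inc col T (Subgroup.closure s) = Subgroup.closure
      ((fun h => Ph inc col T (h, 1)) '' s ∪ Set.range (rw' inc col T)) := by
  apply le_antisymm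
  · rintro _ ⟨⟨h, c⟩, ⟨hh, -⟩, rfl⟩
    have e : ((h, c) : Amb X E Z) = (h, 1) * (1, c) := by simp
    rw [e, map_mul]
    refine mul_mem ?_ ?_
    · simp only at hh
      induction hh using Subgroup.closure_induction with
      | mem x hx => exact Subgroup.subset_closure (Or.inl ⟨x, hx, rfl⟩)
      | one => exact (map_one (Ph inc col T)) ▸ one_mem _
      | mul x y _ _ hx hy =>
        have e : ((x * y, 1) : Amb X E Z) = (x, 1) * (y, 1) := by simp
        rw [e, map_mul]; exact mul_mem (hx (by simp)) (hy (by simp))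
      | inv x _ hx =>
        have e : ((x⁻¹, 1) : Amb X E Z) = (x, 1)⁻¹ := by simp
        rw [e, map_inv]; exact inv_mem (hx (by simp))
    · obtain ⟨c, rfl⟩ := Multiplicative.ofAdd.surjective c
      clear e hh
      induction c using Pi.single_induction with
      | zero => exact (map_one (Ph inc col T)) ▸ one_mem _
      | add f g hf hg =>
        have e : ((1, Multiplicative.ofAdd (f + g)) : Amb X E Z) =
          (1, Multiplicative.ofAdd f) * (1, Multiplicative.ofAdd g) := by simp [ofAdd_add]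
        rw [e, map_mul]; exact mul_mem hf hg
      | single i m =>
        have : m = 0 ∨ m = 1 := by revert m; decide
        rcases this with rfl | rfl
        · simp only [Pi.single_zero, ofAdd_zero]
          exact (map_one (Ph inc col T)) ▸ one_mem _
        · exact Subgroup.subset_closure (Or.inr ⟨i, rfl⟩)
  · rw [Subgroup.closure_le]
    rintro _ (⟨h, hh, rfl⟩ | ⟨e, rfl⟩)
    · exact ⟨_, ⟨Subgroup.subset_closure hh, trivial⟩, rfl⟩
    · exact row_mem inc _ e

end

end Pool.Agent.Lib.MP_e519cf_lc
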