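import Mathlib
import Pool.Agent.Lib.helper80.PT

/-! Further polynomial-time list programs: equality tests, duplicates, indices, closure. -/

namespace Pool.Agent.Lib.MP_e519cf_lc

open Pool.Agent.Lib.helper80 Polynomial

def eqb {α : Type} [DecidableEq α] (a b : α) : Bool := decide (a = b)

@[simp] theorem eqb_iff {α : Type} [DecidableEq α] (a b : α) : eqb a b = true ↔ a = b := by
  simp [eqb]

@[simp] theorem eqb_false {α : Type} [DecidableEq α] (a b : α) : eqb a b = false ↔ a ≠ b := by
  simp [eqb]

class PB (α : Type) [Enc α] [DecidableEq α] : Prop where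
  pt : PT (fun p : α × α => eqb p.1 p.2)

section
variable {α β γ : Type} [Enc α] [Enc β] [Enc γ]

@[fun_prop] theorem pt_eqb [DecidableEq β] [PB β] {f g : α → β} (hf : PT f) (hg : PT g) :
    PT (fun a => eqb (f a) (g a)) :=
  PT.comp (g := fun a => (f a, g a)) PB.pt (PT.prodMk hf hg)

instance : PB ℕ := ⟨(PT.beq (PT.fst PT.id') (PT.snd PT.id')).congr fun p => by
  rw [Bool.eq_iff_iff]; simp⟩

instance [DecidableEq α] [DecidableEq β] [PB α] [PB β] : PB (α × β) :=
  ⟨(show PT (fun p : (α × β) × (α × β) => eqb p.1.1 p.2.1 && eqb p.1.2 p.2.2) by fun_prop).congr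
    fun p => by rw [Bool.eq_iff_iff]; simp [Prod.ext_iff]⟩

instance : PB (List ℕ) :=
  ⟨(show PT (fun p : List ℕ × List ℕ => eqb p.1.length p.2.length &&
      (List.range p.1.length).all fun i => eqb (p.1.getD i 0) (p.2.getD i 0)) by fun_prop).congr
    fun p => by
      rw [Bool.eq_iff_iff]
      simp only [Bool.and_eq_true, eqb_iff, List.all_eq_true, List.mem_range]
      constructor
      · rintro ⟨h1, h2⟩
        refine List.ext_getElem h1 fun i hi hi' => ?_
        have := h2 i hi
        rwa [List.getD_eq_getElem _ _ hi, List.getD_eq_getElem _ _ hi'] at this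
      · intro h; simp [h]⟩

@[fun_prop] theorem pt_take {n : α → ℕ} {l : α → List β} (hn : PT n) (hl : PT l) :
    PT (fun a => (l a).take (n a)) :=
  (show PT (fun a => ((l a).reverse.drop ((l a).length - n a)).reverse) by fun_prop).congr fun a => by
    rw [List.drop_reverse, List.reverse_reverse]
    by_cases h : n a ≤ (l a).length
    · congr 1; omega
    · rw [List.take_of_length_le (by omega), List.take_of_length_le (by omega)]

@[fun_prop] theorem pt_min {m n : α → ℕ} (hm : PT m) (hn : PT n) : PT (fun a => min (m a) (n a)) :=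
  (show PT (fun a => m a - (m a - n a)) by fun_prop).congr fun a => by omega

def clip (M : ℕ) (l : List ℕ) : List ℕ := (l.take M).map fun a => min M a

def clipL (M : ℕ) (S : List (List ℕ)) : List (List ℕ) := (S.take M).map fun l => clip M l

@[fun_prop] theorem pt_clip {M : α → ℕ} {l : α → List ℕ} (hM : PT M) (hl : PT l) :
    PT (fun a => clip (M a) (l a)) := by
  unfold clip; fun_prop

@[fun_prop] theorem pt_clipL {M : α → ℕ} {l : α → List (List ℕ)} (hM : PT M) (hl : PT l) :
    PT (fun a => clipL (M a) (l a)) := by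
  unfold clipL; fun_prop

theorem sz_clip (M : ℕ) (l : List ℕ) : sz (clip M l) ≤ M * (2 * M + 1) := by
  refine (sz_le_of_forall (m := M) ?_).trans ?_
  · intro a ha
    obtain ⟨b, -, rfl⟩ := List.mem_map.1 ha
    simp
  · gcongr; simp [clip]

theorem sz_clipL (M : ℕ) (S : List (List ℕ)) :
    sz (clipL M S) ≤ M * (2 * (M * (2 * M + 1)) + 1) := by
  refine (sz_le_of_forall (m := M * (2 * M + 1)) ?_).trans ?_
  · intro a ha
    obtain ⟨b, -, rfl⟩ := List.mem_map.1 ha
    exact sz_clip _ _
  · gcongr; simp [clipL]

def Sm (M : ℕ) (l : List ℕ) : Prop := l.length ≤ M ∧ ∀ a ∈ l, a ≤ M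

theorem clip_eq {M : ℕ} {l : List ℕ} (h : Sm M l) : clip M l = l := by
  rw [clip, List.take_of_length_le h.1]
  conv_rhs => rw [← List.map_id l]
  exact List.map_congr_left fun a ha => min_eq_right (h.2 a ha)

theorem clipL_eq {M : ℕ} {S : List (List ℕ)} (h1 : S.length ≤ M) (h : ∀ l ∈ S, Sm M l) :
    clipL M S = S := by
  rw [clipL, List.take_of_length_le h1]
  conv_rhs => rw [← List.map_id S]
  exact List.map_congr_left fun a ha => clip_eq (h a ha)

theorem pt_iterC {step : α → List (List ℕ) → List (List ℕ)}
    (hs : PT fun p : α × List (List ℕ) => step p.1 p.2) {k M : α → ℕ} (hk : PT k) (hM : PT M)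
    {init : α → List (List ℕ)} (hi : PT init) :
    PT (fun a => (fun S => clipL (M a) (step a S))^[k a] (init a)) := by
  obtain ⟨p, hp⟩ := hi.sz_le
  obtain ⟨r, hr⟩ := hM.sz_le
  have h := PT.foldl (f := fun a (S : List (List ℕ)) (_ : ℕ) => clipL (M a) (step a S))
    (pt_clipL (by fun_prop) (PT.comp (g := fun p : α × List (List ℕ) × ℕ => (p.1, p.2.1)) hs
      (by fun_prop))) (PT.range hk) hi (p + r * (2 * (r * (2 * r + 1)) + 1)) (fun a n => by
      rw [List.foldl_const]
      have h1 := hp a
      have h2 : M a ≤ r.eval (sz a) := by simpa using hr a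
      simp only [eval_add, eval_mul, eval_ofNat, eval_one]
      cases (List.take n (List.range (k a))).length with
      | zero => simp; omega
      | succ j =>
        rw [Function.iterate_succ_apply']
        refine (sz_clipL _ _).trans (le_add_left ?_)
        gcongr)
  exact h.congr fun a => by rw [List.foldl_const]; simp

def dedupB {α : Type} [DecidableEq α] (l : List α) : List α :=
  l.foldl (fun acc x => bif acc.any (fun y => eqb x y) then acc else acc ++ [x]) []

theorem dedup_aux {α : Type} [DecidableEq α] (l : List α) : ∀ acc : List α, acc.Nodup →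
    (l.foldl (fun acc x => bif acc.any (fun y => eqb x y) then acc else acc ++ [x]) acc).Nodup ∧
    ∀ x, x ∈ l.foldl (fun acc x => bif acc.any (fun y => eqb x y) then acc else acc ++ [x]) acc ↔
      x ∈ acc ∨ x ∈ l := by
  induction l with
  | nil => intro acc h; simpa using h
  | cons b l ih =>
    intro acc h
    rw [List.foldl_cons]
    by_cases hb : b ∈ acc
    · have : acc.any (fun y => eqb b y) = true := by simpa using hb
      rw [this, cond_true]
      refine ⟨(ih acc h).1, fun x => ?_⟩
      rw [(ih acc h).2, List.mem_cons]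
      constructor
      · tauto
      · rintro (h | rfl | h) <;> tauto
    · have : acc.any (fun y => eqb b y) = false := by
        rw [← Bool.not_eq_true]; simpa using hb
      rw [this, cond_false]
      have h' : (acc ++ [b]).Nodup := by
        rw [List.nodup_append]
        refine ⟨h, by simp, ?_⟩
        intro a ha c hc e
        rw [List.mem_singleton.1 hc] at e
        exact hb (e ▸ ha)
      refine ⟨(ih _ h').1, fun x => ?_⟩
      rw [(ih _ h').2]; simp [or_assoc]

theorem nodup_dedupB {α : Type} [DecidableEq α] (l : List α) : (dedupB l).Nodup :=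
  (dedup_aux l [] List.nodup_nil).1

@[simp] theorem mem_dedupB {α : Type} [DecidableEq α] {l : List α} {x : α} :
    x ∈ dedupB l ↔ x ∈ l := by
  rw [dedupB, (dedup_aux l [] List.nodup_nil).2]; simp

@[fun_prop] theorem pt_dedupB [DecidableEq β] [PB β] {l : α → List β} (hl : PT l) :
    PT (fun a => dedupB (l a)) := by
  obtain ⟨r, hr⟩ := hl.sz_le
  have key : ∀ (l acc : List β), sz (l.foldl
      (fun acc x => bif acc.any (fun y => eqb x y) then acc else acc ++ [x]) acc) ≤
        sz acc + sz l := by
    intro l
    induction l with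
    | nil => simp
    | cons b l ih =>
      intro acc
      rw [List.foldl_cons]
      refine (ih _).trans ?_
      cases acc.any (fun y => eqb b y) <;> simp
      omega
  exact PT.foldl (f := fun _ (acc : List β) x =>
    bif acc.any (fun y => eqb x y) then acc else acc ++ [x]) (by fun_prop) hl (PT.const []) r
    fun a n => (key _ _).trans (by simpa using (sz_take_le n (l a)).trans (hr a))

def idx {α : Type} [DecidableEq α] (y : α) (L : List α) : ℕ :=
  ((List.range L.length).filter fun i => eqb (L.getD i y) y).headD 0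

@[fun_prop] theorem pt_idx [DecidableEq β] [PB β] {y : α → β} {l : α → List β} (hy : PT y)
    (hl : PT l) : PT (fun a => idx (y a) (l a)) := by
  unfold idx; fun_prop

theorem idx_getElem {α : Type} [DecidableEq α] {L : List α} (h : L.Nodup) (i : ℕ)
    (hi : i < L.length) : idx L[i] L = i := by
  unfold idx
  have hm : ∀ j, j ∈ ((List.range L.length).filter fun j => eqb (L.getD j L[i]) L[i]) ↔ j = i := by
    intro j
    simp only [List.mem_filter, List.mem_range, eqb_iff]
    constructor
    · rintro ⟨h1, h2⟩
      rw [List.getD_eq_getElem _ _ h1] at h2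
      exact (List.Nodup.getElem_inj_iff h).1 h2
    · rintro rfl
      exact ⟨hi, List.getD_eq_getElem _ _ hi⟩
  cases e : ((List.range L.length).filter fun j => eqb (L.getD j L[i]) L[i]) with
  | nil => have := (hm i).2 rfl; rw [e] at this; simp at this
  | cons a l => exact (hm a).1 (by rw [e]; simp)

def closStep (step : List ℕ → List (List ℕ)) (cur : List (List ℕ)) : List (List ℕ) :=
  dedupB (cur ++ cur.flatMap step)

def clos (M : ℕ) (step : List ℕ → List (List ℕ)) (init : List (List ℕ)) : List (List ℕ) :=
  (fun S => clipL M (closStep step S))^[M + 1] init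

theorem pt_clos {step : α → List ℕ → List (List ℕ)} (hs : PT fun p : α × List ℕ => step p.1 p.2)
    {M : α → ℕ} (hM : PT M) {init : α → List (List ℕ)} (hi : PT init) :
    PT (fun a => clos (M a) (step a) (init a)) := by
  refine pt_iterC (step := fun a S => closStep (step a) S) ?_ (by fun_prop) hM hi
  unfold closStep
  refine pt_dedupB (PT.append (by fun_prop) (PT.flatMap ?_ (by fun_prop)))
  exact PT.comp (g := fun p : (α × List (List ℕ)) × List ℕ => (p.1.1, p.2)) hs (by fun_prop)

theorem clos_spec {M : ℕ} {step : List ℕ → List (List ℕ)} {init : List (List ℕ)}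
    (R : Finset (List ℕ)) (hR : R.card ≤ M) (hs : ∀ x ∈ R, Sm M x) (h0 : ∀ x ∈ init, x ∈ R)
    (h1 : ∀ x ∈ R, ∀ y ∈ step x, y ∈ R) :
    (clos M step init).Nodup ∧ (∀ x ∈ clos M step init, x ∈ R) ∧
      (∀ x ∈ init, x ∈ clos M step init) ∧
      ∀ x ∈ clos M step init, ∀ y ∈ step x, y ∈ clos M step init := by
  set F := fun S => clipL M (closStep step S) with hF
  have hm : ∀ S x, x ∈ closStep step S ↔ x ∈ S ∨ ∃ y ∈ S, x ∈ step y := by
    intro S x; simp [closStep]
  have hlen : ∀ S : List (List ℕ), S.Nodup → (∀ x ∈ S, x ∈ R) → S.length ≤ M := by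
    intro S hn h
    rw [← List.toFinset_card_of_nodup hn]
    exact (Finset.card_le_card fun x hx => h x (List.mem_toFinset.1 hx)).trans hR
  have hin : ∀ S : List (List ℕ), (∀ x ∈ S, x ∈ R) → ∀ x ∈ closStep step S, x ∈ R := by
    intro S h x hx
    rcases (hm S x).1 hx with h2 | ⟨y, hy, h2⟩
    · exact h x h2
    · exact h1 y (h y hy) x h2
  have hFe : ∀ S : List (List ℕ), (∀ x ∈ S, x ∈ R) → F S = closStep step S := fun S h =>
    clipL_eq (hlen _ (nodup_dedupB _) (hin S h)) fun l hl => hs l (hin S h l hl)
  have key : ∀ k, (∀ x ∈ F^[k] init, x ∈ R) ∧ (∀ x ∈ init, x ∈ F^[k] init) ∧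
      ((∀ x ∈ F^[k] init, ∀ y ∈ step x, y ∈ F^[k] init) ∨ k ≤ (F^[k] init).toFinset.card) := by
    intro k
    induction k with
    | zero => exact ⟨h0, fun x hx => hx, Or.inr (Nat.zero_le _)⟩
    | succ k ih =>
      obtain ⟨a, b, c⟩ := ih
      rw [Function.iterate_succ_apply', hFe _ a]
      refine ⟨hin _ a, fun x hx => (hm _ _).2 (Or.inl (b x hx)), ?_⟩
      by_cases hc : ∀ x ∈ F^[k] init, ∀ y ∈ step x, y ∈ F^[k] init
      · left
        intro x hx y hy
        refine (hm _ _).2 (Or.inl ?_)
        rcases (hm _ _).1 hx with h2 | ⟨z, hz, h2⟩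
        · exact hc x h2 y hy
        · exact hc x (hc z hz x h2) y hy
      · right
        have c' := c.resolve_left hc
        push Not at hc
        obtain ⟨x, hx, y, hy, hn⟩ := hc
        refine Nat.succ_le_of_lt (lt_of_le_of_lt c' (Finset.card_lt_card ?_))
        rw [Finset.ssubset_iff_of_subset]
        · exact ⟨y, List.mem_toFinset.2 ((hm _ _).2 (Or.inr ⟨x, hx, hy⟩)),
            fun h => hn (List.mem_toFinset.1 h)⟩
        · intro z hz
          exact List.mem_toFinset.2 ((hm _ _).2 (Or.inl (List.mem_toFinset.1 hz)))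
  obtain ⟨a, b, c⟩ := key (M + 1)
  refine ⟨?_, a, b, c.resolve_right fun h => ?_⟩
  · rw [clos, ← hF, Function.iterate_succ_apply', hFe _ (key M).1]
    exact nodup_dedupB _
  · have := (Finset.card_le_card fun x hx => a x (List.mem_toFinset.1 hx)).trans hR
    omega

end

end Pool.Agent.Lib.MP_e519cf_lc
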