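import Pool.Agent.Lib.MP_e519cf_lc.Defs
import Pool.Agent.Lib.MP_e519cf_lc.FHL
import Pool.Agent.Lib.MP_e519cf_lc.PTX

/-! Permutations as tables; the strong generating set algorithm on tables. -/

namespace Pool.Agent.Lib.MP_e519cf_lc

open Equiv Pool.Agent.Lib.helper80 Polynomial

def app (p : List ℕ) (x : ℕ) : ℕ := p.getD x x
def mulL (p q : List ℕ) : List ℕ := q.map fun x => app p x
def invL (p : List ℕ) : List ℕ := (List.range p.length).map fun y => idx y p
def fixL (pre : List ℕ) (t : List ℕ) : Bool := pre.all fun b => eqb (app t b) b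
def pickL (n : ℕ) (S : Tabs) (pre : List ℕ) (b : ℕ) (g : List ℕ) : List ℕ :=
  ((List.range n :: S).filter fun t => fixL pre t && eqb (app t b) (app g b)).headD (List.range n)
def stepL (n : ℕ) (S : Tabs) (pre : List ℕ) (b : ℕ) (g : List ℕ) : List ℕ :=
  bif fixL pre g then mulL (invL (pickL n S pre b g)) g else g
def siftF (n : ℕ) (S : Tabs) (st : List ℕ × List ℕ) (b : ℕ) : List ℕ × List ℕ :=
  (st.1 ++ [b], clip n (stepL n S st.1 b st.2))
def siftL (n : ℕ) (S : Tabs) (bs : List ℕ) (g : List ℕ) : List ℕ :=
  (bs.foldl (siftF n S) ([], g)).2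
def candL (gens S : Tabs) : Tabs := gens ++ S.flatMap fun t => S.map fun u => mulL t u
def growL (n : ℕ) (gens : Tabs) (bs : List ℕ) (S : Tabs) : Tabs :=
  S ++ (((candL gens S).map fun c => siftL n S bs c).filter fun ρ => !eqb ρ (List.range n)).take 1
def sgsL (n : ℕ) (gens : Tabs) (bs : List ℕ) : Tabs :=
  (fun S => clipL (bs.length * n + 1 + n) (growL n gens bs S))^[bs.length * n + 1] []

section
variable {α : Type} [Enc α]

@[fun_prop] theorem pt_app {p : α → List ℕ} {x : α → ℕ} (hp : PT p) (hx : PT x) :
    PT (fun a => app (p a) (x a)) := by unfold app; fun_prop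

@[fun_prop] theorem pt_mulL {p q : α → List ℕ} (hp : PT p) (hq : PT q) :
    PT (fun a => mulL (p a) (q a)) := by unfold mulL; fun_prop

@[fun_prop] theorem pt_invL {p : α → List ℕ} (hp : PT p) : PT (fun a => invL (p a)) := by
  unfold invL; fun_prop

@[fun_prop] theorem pt_fixL {p q : α → List ℕ} (hp : PT p) (hq : PT q) :
    PT (fun a => fixL (p a) (q a)) := by unfold fixL; fun_prop

@[fun_prop] theorem pt_pickL {n b : α → ℕ} {S : α → Tabs} {pre g : α → List ℕ} (hn : PT n)
    (hS : PT S) (hp : PT pre) (hb : PT b) (hg : PT g) :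
    PT (fun a => pickL (n a) (S a) (pre a) (b a) (g a)) := by unfold pickL; fun_prop

@[fun_prop] theorem pt_stepL {n b : α → ℕ} {S : α → Tabs} {pre g : α → List ℕ} (hn : PT n)
    (hS : PT S) (hp : PT pre) (hb : PT b) (hg : PT g) :
    PT (fun a => stepL (n a) (S a) (pre a) (b a) (g a)) := by unfold stepL; fun_prop

@[fun_prop] theorem pt_siftL {n : α → ℕ} {S : α → Tabs} {bs g : α → List ℕ} (hn : PT n)
    (hS : PT S) (hb : PT bs) (hg : PT g) : PT (fun a => siftL (n a) (S a) (bs a) (g a)) := by
  obtain ⟨p, hp⟩ := hn.sz_le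
  obtain ⟨q, hq⟩ := hb.sz_le
  obtain ⟨r, hr⟩ := hg.sz_le
  have key : ∀ n S (l : List ℕ) (st : List ℕ × List ℕ), (l.foldl (siftF n S) st).1 = st.1 ++ l ∧
      sz (l.foldl (siftF n S) st).2 ≤ sz st.2 + n * (2 * n + 1) := by
    intro n S l
    induction l using List.reverseRecOn with
    | nil => simp
    | append_singleton l b ih =>
      intro st
      rw [List.foldl_append]
      refine ⟨by simp [siftF, (ih st).1], (sz_clip _ _).trans (by omega)⟩
  refine PT.snd (PT.foldl (f := fun a st b => siftF (n a) (S a) st b) (by unfold siftF; fun_prop) hb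
    (by fun_prop) (2 * q + 1 + (r + p * (2 * p + 1))) fun a k => ?_)
  obtain ⟨h1, h2⟩ := key (n a) (S a) ((bs a).take k) ([], g a)
  have h3 := (sz_take_le k (bs a)).trans (hq a)
  have h4 : n a ≤ p.eval (sz a) := by simpa using hp a
  have h5 := hr a
  have h6 : n a * (2 * n a + 1) ≤ p.eval (sz a) * (2 * p.eval (sz a) + 1) := by gcongr
  generalize List.foldl (siftF (n a) (S a)) ([], g a) (List.take k (bs a)) = st at h1 h2
  obtain ⟨s1, s2⟩ := st
  simp only [List.nil_append] at h1 h2
  subst h1
  simp only [sz_pair, eval_add, eval_mul, eval_ofNat, eval_one]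
  omega

@[fun_prop] theorem pt_sgsL {n : α → ℕ} {gens : α → Tabs} {bs : α → List ℕ} (hn : PT n)
    (hS : PT gens) (hb : PT bs) : PT (fun a => sgsL (n a) (gens a) (bs a)) :=
  pt_iterC (step := fun a S => growL (n a) (gens a) (bs a) S) (by unfold growL candL; fun_prop)
    (by fun_prop) (by fun_prop) (PT.const [])

end

section
variable {n : ℕ}

@[simp] theorem length_tab (σ : Perm (Fin n)) : (tab σ).length = n := by simp [tab]

@[simp] theorem app_tab (σ : Perm (Fin n)) (x : Fin n) : app (tab σ) x = σ x := by
  rw [app, List.getD_eq_getElem _ _ (by simp)]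
  simp [tab]

theorem app_tab_ge (σ : Perm (Fin n)) {x : ℕ} (h : n ≤ x) : app (tab σ) x = x := by
  rw [app, List.getD_eq_default _ _ (by simpa using h)]

theorem tab_inj : Function.Injective (tab : Perm (Fin n) → List ℕ) := by
  intro a b h
  ext x
  rw [← app_tab, ← app_tab, h]

theorem range_map_eq (f : ℕ → ℕ) : (List.range n).map f = List.ofFn fun i : Fin n => f i := by
  apply List.ext_getElem <;> simp

theorem tab_one : tab (1 : Perm (Fin n)) = List.range n := by
  apply List.ext_getElem <;> simp [tab]

theorem mulL_tab (a b : Perm (Fin n)) : mulL (tab a) (tab b) = tab (a * b) := by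
  simp only [mulL, tab, List.map_ofFn]
  congr 1
  funext i
  exact app_tab a (b i)

theorem nodup_tab (a : Perm (Fin n)) : (tab a).Nodup :=
  List.nodup_ofFn.2 (Fin.val_injective.comp a.injective)

theorem invL_tab (a : Perm (Fin n)) : invL (tab a) = tab a⁻¹ := by
  rw [invL, length_tab, range_map_eq]
  unfold tab
  congr 1
  funext y
  have := idx_getElem (nodup_tab a) (a⁻¹ y) (by simp)
  simpa [tab] using this

theorem fixL_tab (pre : List (Fin n)) (t : Perm (Fin n)) :
    fixL (pre.map Fin.val) (tab t) = decide (Fx pre t) := by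
  rw [Bool.eq_iff_iff]
  simp [fixL, Fx, Fin.val_inj]

theorem sm_tab {M : ℕ} (h : n ≤ M) (a : Perm (Fin n)) : Sm M (tab a) := by
  refine ⟨by simpa using h, fun x hx => ?_⟩
  simp only [tab, List.mem_ofFn] at hx
  obtain ⟨i, rfl⟩ := hx
  exact (a i).2.le.trans h

theorem pickL_tab (S : List (Perm (Fin n))) (pre : List (Fin n)) (b : Fin n) (g : Perm (Fin n)) :
    pickL n (S.map tab) (pre.map Fin.val) b (tab g) = tab (pick S pre b g) := by
  rw [pickL, pick, ← tab_one, ← List.map_cons, List.filter_map]
  have : ((fun t => fixL (pre.map Fin.val) t && eqb (app t b) (app (tab g) b)) ∘ tab) =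
      fun t : Perm (Fin n) => decide (Fx pre t ∧ t b = g b) := by
    funext t
    rw [Bool.eq_iff_iff]
    simp [fixL_tab, Fin.val_inj]
  rw [this]
  cases List.filter (fun t => decide (Fx pre t ∧ t b = g b)) (1 :: S) <;> rfl

theorem stepL_tab (S : List (Perm (Fin n))) (pre : List (Fin n)) (b : Fin n) (g : Perm (Fin n)) :
    stepL n (S.map tab) (pre.map Fin.val) b (tab g) = tab (stepA S pre b g) := by
  rw [stepL, stepA, fixL_tab, pickL_tab, invL_tab, mulL_tab]
  by_cases h : Fx pre g <;> simp [h]

theorem siftL_tab (S : List (Perm (Fin n))) (bs : List (Fin n)) (g : Perm (Fin n)) :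
    siftL n (S.map tab) (bs.map Fin.val) (tab g) = tab (siftA S [] bs g) := by
  have key : ∀ (r pre : List (Fin n)) (g : Perm (Fin n)),
      ((r.map Fin.val).foldl (siftF n (S.map tab)) (pre.map Fin.val, tab g)).2 =
        tab (siftA S pre r g) := by
    intro r
    induction r with
    | nil => intro _ _; rfl
    | cons b r ih =>
      intro pre g
      rw [List.map_cons, List.foldl_cons, siftF, stepL_tab, clip_eq (sm_tab le_rfl _), siftA, ← ih]
      simp
  exact key bs [] g

theorem growL_tab (gens S : List (Perm (Fin n))) (bs : List (Fin n)) :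
    growL n (gens.map tab) (bs.map Fin.val) (S.map tab) = (growA gens bs S).map tab := by
  have h1 : candL (gens.map tab) (S.map tab) = (candA gens S).map tab := by
    simp [candL, candA, List.flatMap_map, List.map_flatMap, Function.comp_def, mulL_tab]
  rw [growL, growA, resA, h1, List.map_append, List.map_take, List.map_map]
  congr 2
  have : ((fun c => siftL n (S.map tab) (bs.map Fin.val) c) ∘ tab) = tab ∘ siftA S [] bs := by
    funext c; exact siftL_tab S bs c
  rw [this, ← List.map_map, List.filter_map]
  congr 2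
  funext ρ
  simp [eqb, ← tab_one, tab_inj.eq_iff]

theorem sgsL_tab (gens : List (Perm (Fin n))) (bs : List (Fin n)) :
    sgsL n (gens.map tab) (bs.map Fin.val) = (sgsA gens bs (bs.length * n + 1)).map tab := by
  have key : ∀ k, k ≤ bs.length * n + 1 → (fun S => clipL (bs.length * n + 1 + n)
      (growL n (gens.map tab) (bs.map Fin.val) S))^[k] [] = (sgsA gens bs k).map tab := by
    intro k
    induction k with
    | zero => intro _; rfl
    | succ k ih =>
      intro hk
      have e : sgsA gens bs (k + 1) = growA gens bs (sgsA gens bs k) :=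
        Function.iterate_succ_apply' _ _ _
      rw [Function.iterate_succ_apply', ih (by omega), growL_tab, ← e, clipL_eq]
      · have := sgs_length gens bs (k + 1)
        simp; omega
      · intro l hl
        obtain ⟨a, -, rfl⟩ := List.mem_map.1 hl
        exact sm_tab (by omega) a
  simpa [sgsL] using key _ le_rfl

/-- The strong generating set for the base `pre` followed by all points. -/
def sgs (gens : List (Perm (Fin n))) (pre : List (Fin n)) : List (Perm (Fin n)) :=
  sgsA gens (pre ++ List.finRange n) ((pre ++ List.finRange n).length * n + 1)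

theorem sgs_tab (gens : List (Perm (Fin n))) (pre : List (Fin n)) :
    sgsL n (gens.map tab) (pre.map Fin.val ++ List.range n) = (sgs gens pre).map tab := by
  rw [sgs, ← sgsL_tab, List.map_append, List.map_coe_finRange_eq_range]

theorem sgs_st (gens : List (Perm (Fin n))) (pre : List (Fin n)) :
    Stable gens (pre ++ List.finRange n) (sgs gens pre) :=
  sgs_stable gens (by simp) (by simp)

/-- Generators of the pointwise stabiliser. -/
def stabA (gens : List (Perm (Fin n))) (pre : List (Fin n)) : List (Perm (Fin n)) :=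
  (sgs gens pre).filter fun t => decide (Fx pre t)

def stabL (n : ℕ) (gens : Tabs) (pre : List ℕ) : Tabs :=
  (sgsL n gens (pre ++ List.range n)).filter fun t => fixL pre t

theorem stabL_tab (gens : List (Perm (Fin n))) (pre : List (Fin n)) :
    stabL n (gens.map tab) (pre.map Fin.val) = (stabA gens pre).map tab := by
  rw [stabL, sgs_tab, List.filter_map, stabA]
  congr 2
  funext t
  exact fixL_tab pre t

theorem mem_gen_stabA (gens : List (Perm (Fin n))) (pre : List (Fin n)) (g : Perm (Fin n)) :
    g ∈ gen (stabA gens pre) ↔ g ∈ gen gens ∧ Fx pre g := by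
  constructor
  · intro h
    induction h using Subgroup.closure_induction with
    | mem x hx =>
      simp only [stabA, List.mem_filter, decide_eq_true_eq] at hx
      exact ⟨sgs_mem _ _ _ _ hx.1, hx.2⟩
    | one => exact ⟨one_mem _, Fx.one _⟩
    | mul x y _ _ hx hy => exact ⟨mul_mem hx.1 hy.1, hx.2.mul hy.2⟩
    | inv x _ hx => exact ⟨inv_mem hx.1, hx.2.inv⟩
  · rintro ⟨h1, h2⟩
    exact (sgs_st gens pre).stab (by simp) h1 pre _ rfl h2

theorem lift_mem (gens : List (Perm (Fin n))) (pre : List (Fin n)) (π : Perm (Fin n)) :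
    π * (siftA (sgs gens pre) [] pre π)⁻¹ ∈ gen gens :=
  sift_mem (sgs_mem _ _ _) _ _ _

theorem lift_fix (gens : List (Perm (Fin n))) (pre : List (Fin n)) {π g : Perm (Fin n)}
    (hg : g ∈ gen gens) (h : ∀ x ∈ pre, g x = π x) : Fx pre (siftA (sgs gens pre) [] pre π) := by
  have := (sgs_st gens pre).lift (by simp) (sgs_mem _ _ _) (List.finRange n) pre [] π g (by simp) hg
    (by simpa using h) (fun _ h => by simp at h)
  simpa using this

end

@[fun_prop] theorem pt_stabL {α : Type} [Enc α] {n : α → ℕ} {gens : α → Tabs} {bs : α → List ℕ}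
    (hn : PT n) (hS : PT gens) (hb : PT bs) : PT (fun a => stabL (n a) (gens a) (bs a)) := by
  unfold stabL; fun_prop

end Pool.Agent.Lib.MP_e519cf_lc
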