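import Pool.Agent.Lib.Rlz.NatBle
import Pool.Agent.Lib.MP_e519cf_lc.Build

/-! Correctness of the reduction. -/

namespace Pool.Agent.Lib.MP_e519cf_lc

open Equiv Pool.Agent.Lib.helper80 Classical

section
variable {D : Dat} {g : Fin D.2.2.2.1.length → Perm (Fin D.1)}
  {dom : Fin D.2.2.2.2.length → Set (Fin D.1)} {mu : Fin D.2.2.2.2.length → Perm (Fin D.1)}
  {Δ : Set (Fin D.1)}

/-- The raw data describe the abstract data. -/
structure Descr (D : Dat) (g : Fin D.2.2.2.1.length → Perm (Fin D.1))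
    (dom : Fin D.2.2.2.2.length → Set (Fin D.1)) (mu : Fin D.2.2.2.2.length → Perm (Fin D.1))
    (Δ : Set (Fin D.1)) : Prop where
  hg : ∀ i : Fin D.2.2.2.1.length, D.2.2.2.1.getD i [] = tab (g i)
  hnu : ∀ (k : Fin D.2.2.2.2.length) (y : Fin D.1), nu D k y = if y ∈ dom k then (mu k y : ℕ) else D.1
  hΔ : ∀ z : Fin D.1, z.val ∈ D.2.1 ↔ z ∈ Δ

theorem Descr.domB (h : Descr D g dom mu Δ) (k : Fin D.2.2.2.2.length) (y : Fin D.1) :
    domB D k y = true ↔ y ∈ dom k := by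
  rw [MP_e519cf_lc.domB, h.hnu, Nat.blt_eq]
  split_ifs with hy <;> simp [hy]

theorem Descr.incL (h : Descr D g dom mu Δ) (e : Rw _ _ _) (x : Nd _ _ _) :
    incL D (el e) (xl x) = true ↔ incR g dom mu e x := by
  rcases e with x0 | z | i | ⟨⟨i, k⟩, z⟩
  · have : Nat.ble (xl x0).1 2 = true := by rcases x0 with z | z | ⟨i, k⟩ <;> rfl
    simp [MP_e519cf_lc.incL, el, this, xl_inj.eq_iff, incR]
  · rcases x with y | y | ⟨i, k⟩ <;> simp [MP_e519cf_lc.incL, el, xl, incR, eqb, Fin.val_inj, Nat.ble]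
  · rcases x with y | y | ⟨i, k⟩ <;> simp [MP_e519cf_lc.incL, el, xl, incR, eqb, Fin.val_inj, Nat.ble]
  · rcases x with y | y | ⟨i', k'⟩
    · simp [MP_e519cf_lc.incL, el, xl, incR, eqb, Fin.val_inj, Nat.ble]
    · have : MP_e519cf_lc.incL D (el (.inr (.inr (.inr ((i, k), z))))) 
          (xl (a := D.2.2.2.1.length) (b := D.2.2.2.2.length) (.inr (.inl y))) =
          (MP_e519cf_lc.domB D k z && eqb y.val (app (D.2.2.2.1.getD i []) (nu D k z))) := by
        simp [MP_e519cf_lc.incL, el, xl, eqb, Nat.ble]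
      rw [this, Bool.and_eq_true, h.domB, h.hg, h.hnu]
      simp only [incR, eqb_iff, Sum.inr.injEq, reduceCtorEq, false_or, Sum.inl.injEq]
      refine and_congr_right fun hz => ?_
      rw [if_pos hz, app_tab, Fin.val_inj]
    · simp [MP_e519cf_lc.incL, el, xl, incR, eqb, Fin.val_inj, Nat.ble]

theorem Descr.colL (h : Descr D g dom mu Δ) (e : Rw _ (Fin D.2.2.2.1.length) _) :
    colL D (el e) = colR dom Δ e := by
  rcases e with (z | z | ⟨i, k⟩) | z | i | ⟨⟨i, k⟩, z⟩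
  · by_cases hz : z ∈ Δ
    · have : D.2.1.any (fun w => eqb w z.val) = true := by simpa using (h.hΔ z).2 hz
      simp only [MP_e519cf_lc.colL, el, xl, this, colR, hz]; rfl
    · have : D.2.1.any (fun w => eqb w z.val) = false := by
        rw [← Bool.not_eq_true]; simpa using fun h' => hz ((h.hΔ z).1 h')
      simp only [MP_e519cf_lc.colL, el, xl, this, colR, hz]; rfl
  · rfl
  · rfl
  · rfl
  · rfl
  · by_cases hz : z ∈ dom k
    · simp only [MP_e519cf_lc.colL, el, (h.domB k z).2 hz, colR, hz]; rfl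
    · have : MP_e519cf_lc.domB D k z = false := by rw [← Bool.not_eq_true, h.domB]; exact hz
      simp only [MP_e519cf_lc.colL, el, this, colR, hz]; rfl

theorem val_flip (ε : ZMod 2) : (ε + 1).val = 1 - ε.val := by revert ε; decide

theorem Descr.rowF (h : Descr D g dom mu Δ) (e : Rw _ _ _) (y : Pt _ _ _ (32 * TL D)) :
    rowF D (el e) (lab y) = lab (RR g dom mu Δ (TL D) e y) := by
  rcases y with ⟨x, z, ε⟩ | ⟨x, z, j⟩ | ⟨e', j, ε⟩
  · rw [row_cell]
    by_cases hx : incR g dom mu e x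
    · simp [MP_e519cf_lc.rowF, lab, (h.incL e x).2 hx, hx, val_flip, eqb]
    · have : MP_e519cf_lc.incL D (el e) (xl x) = false := by
        rw [← Bool.not_eq_true, h.incL]; exact hx
      simp [MP_e519cf_lc.rowF, lab, this, hx, eqb]
  · rw [row_pad]
    simp [MP_e519cf_lc.rowF, lab, eqb]
  · rw [row_priv]
    by_cases hx : e' = e ∧ (j : ℕ) < pvf (colR dom Δ) (TL D) e
    · have : Nat.blt j ((8 + colR dom Δ e) * TL D) = true := by rw [Nat.blt_eq]; exact hx.2
      rw [if_pos hx]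
      simp [MP_e519cf_lc.rowF, lab, h.colL, hx.1, this, val_flip, eqb]
    · have : (eqb (el e') (el e) && Nat.blt j ((8 + colR dom Δ e) * TL D)) = false := by
        rw [← Bool.not_eq_true, Bool.and_eq_true, eqb_iff, el_inj.eq_iff, Nat.blt_eq]; exact hx
      rw [if_neg hx]
      simp only [MP_e519cf_lc.rowF, lab, h.colL, this]
      simp [eqb]

theorem Descr.cell (h : Descr D g dom mu Δ) (i : Fin D.2.2.2.1.length) (F : YL → ℕ)
    (H : Nd _ _ _ → Perm (Fin D.1)) (h1 : ∀ z, H (.inl z) = 1) (h2 : ∀ z, H (.inr (.inl z)) = 1)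
    (h3 : ∀ i' k z, ¬ (i' = i ∧ z ∈ dom k) → H (.inr (.inr (i', k))) z = z)
    (h4 : ∀ k z t q, z ∈ dom k → F (t, (2, i, k, 0), z, q) = H (.inr (.inr (i, k))) z)
    (y : Pt _ _ _ (32 * TL D)) :
    (bif onB D i (lab y) then ((lab y).1, (lab y).2.1, F (lab y), (lab y).2.2.2) else lab y) =
      lab (Ph (incR g dom mu) (colR dom Δ) (TL D) (H, 1) y) := by
  have key : ∀ (x : Nd _ _ _) (z : Fin D.1) (t q : ℕ), t ≤ 1 →
      (bif onB D i (t, xl x, z, q) then (t, xl x, F (t, xl x, z, q), q) else (t, xl x, z.val, q)) =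
        (t, xl x, (H x z).val, q) := by
    intro x z t q ht
    rcases x with w | w | ⟨i', k⟩
    · simp [onB, xl, eqb, h1]
    · simp [onB, xl, eqb, h2]
    · by_cases hc : i' = i ∧ z ∈ dom k
      · obtain ⟨rfl, hz⟩ := hc
        have : onB D i' (t, xl (.inr (.inr (i', k)) : Nd (Fin D.1) _ _), z, q) = true := by
          simp [onB, xl, ht, h.domB, hz]
        rw [this, cond_true, ← h4 k z t q hz]; rfl
      · have : onB D i (t, xl (.inr (.inr (i', k)) : Nd (Fin D.1) _ _), z, q) = false := by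
          rw [← Bool.not_eq_true]
          simpa [onB, xl, ht, h.domB, Fin.val_inj] using hc
        rw [this, cond_false, h3 _ _ _ hc]
  rcases y with ⟨x, z, ε⟩ | ⟨x, z, j⟩ | ⟨e', j, ε⟩
  · simpa [lab, Phi_apply, act] using key x z 0 ε.val (by omega)
  · simpa [lab, Phi_apply, act] using key x z 1 j le_rfl
  · simp [lab, Phi_apply, act, onB, Nat.ble]

theorem core {N G : Subgroup (Perm (Fin D.1))} (h : Descr D g dom mu Δ) (hg : Good N G g dom mu)
    {gN : List (Perm (Fin D.1))} (hN : gen gN = N) (hD : D.2.2.1 = gN.map tab) :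
    ∃ hs : List (Perm (Fin (ysL D).length)), gensL D = hs.map tab ∧
      ∀ ns : List (Perm (Fin (ysL D).length)),
        gen ns = Subgroup.normalizer (gen hs : Set (Perm (Fin (ysL D).length))) →
        ∃ τs : List (Perm (Fin D.1)), (ns.map tab).map (fun ω => readL D ω) = τs.map tab ∧
          gen τs ≤ Subgroup.normalizer (G : Set (Perm (Fin D.1))) ∧
          (∀ τ ∈ gen τs, ∀ z, τ z ∈ Δ ↔ z ∈ Δ) ∧
          ∀ γ ∈ G, (∀ z, γ z ∈ Δ ↔ z ∈ Δ) → γ ∈ gen τs := by
  obtain ⟨e, e1, e2, e3⟩ := exists_num (ys := ysL D) lab_inj (nodup_dedupB _) (mem_ysL (D := D))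
  let c := e.permCongrHom
  have hc : ∀ ψ, c ψ = e.permCongr ψ := fun _ => rfl
  have hT : Fintype.card (Fin D.1) *
      Fintype.card (Nd (Fin D.1) (Fin D.2.2.2.1.length) (Fin D.2.2.2.2.length)) < TL D := by
    simp [TL]
  have hhat : ∀ (i : Fin D.2.2.2.1.length), ∀ m ∈ gN,
      ((ysL D).map fun y => idx (hatF D i (tab m) y) (ysL D)) =
        tab (c (Ph (incR g dom mu) (colR dom Δ) (TL D) (hat dom i m, 1))) := by
    intro i m hm
    refine e3 _ _ (h.cell i (fun y => app (tab m) y.2.2.1) _ (fun _ => rfl) (fun _ => rfl) ?_ ?_)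
    · intro i' k z hn
      simp only [hat]
      split_ifs with hi
      · exact res_not _ fun hz => hn ⟨hi, hz⟩
      · rfl
    · intro k z t q hz
      obtain ⟨x, -, -, hx, -⟩ := hg.b1 k
      simp only [hat, if_true, app_tab]
      rw [res_mem (hx ▸ OP_inv (le_OP N (hN ▸ Subgroup.subset_closure hm)) x) hz]
  have htt : ∀ (i : Fin D.2.2.2.1.length),
      ((ysL D).map fun y => idx (ttF D i y) (ysL D)) =
        tab (c (Ph (incR g dom mu) (colR dom Δ) (TL D) (tt mu i, 1))) := by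
    intro i
    refine e3 _ _ (h.cell i (fun y => nu D y.2.1.2.2.1 y.2.2.1) _ (fun _ => rfl) (fun _ => rfl) ?_ ?_)
    · intro i' k z hn
      obtain ⟨x, m, -, hx, hm⟩ := hg.b1 k
      simp only [tt]
      split_ifs with hi
      · rw [hm]; exact res_not _ fun hz => hn ⟨hi, hx ▸ hz⟩
      · rfl
    · intro k z t q hz
      simp only [tt, if_true, h.hnu, hz]
  have hall : ∀ l, l ∈ gensL D ↔ ∃ ψ ∈ (fun h => Ph (incR g dom mu) (colR dom Δ) (TL D) (h, 1)) ''
      gensH dom mu {x | x ∈ gN} ∪ Set.range (RR g dom mu Δ (TL D)), tab (c ψ) = l := by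
    intro l
    simp only [gensL, List.mem_append, List.mem_map, List.mem_flatMap, List.mem_range, mem_esL, hD]
    constructor
    · rintro (⟨_, ⟨r, rfl⟩, rfl⟩ | ⟨i, hi, _, ⟨m, hm, rfl⟩, rfl⟩ | ⟨i, hi, rfl⟩)
      · exact ⟨_, Or.inr ⟨r, rfl⟩, (e3 _ _ (h.rowF r)).symm⟩
      · exact ⟨_, Or.inl ⟨_, Or.inl ⟨⟨i, hi⟩, m, hm, rfl⟩, rfl⟩, (hhat ⟨i, hi⟩ m hm).symm⟩
      · exact ⟨_, Or.inl ⟨_, Or.inr ⟨⟨i, hi⟩, rfl⟩, rfl⟩, (htt ⟨i, hi⟩).symm⟩
    · rintro ⟨_, ⟨_, ⟨i, m, hm, rfl⟩ | ⟨i, rfl⟩, rfl⟩ | ⟨r, rfl⟩, rfl⟩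
      · exact Or.inr (Or.inl ⟨i, i.2, _, ⟨m, hm, rfl⟩, hhat i m hm⟩)
      · exact Or.inr (Or.inr ⟨i, i.2, htt i⟩)
      · exact Or.inl ⟨_, ⟨r, rfl⟩, e3 _ _ (h.rowF r)⟩
  obtain ⟨hs, hhs⟩ : ∃ hs : List (Perm (Fin (ysL D).length)), gensL D = hs.map tab := by
    refine ⟨(gensL D).map (Function.invFun tab), ?_⟩
    rw [List.map_map]
    conv_lhs => rw [← List.map_id (gensL D)]
    refine List.map_congr_left fun l hl => ?_
    obtain ⟨ψ, -, rfl⟩ := (hall l).1 hl
    exact (Function.invFun_eq (f := tab) ⟨c ψ, rfl⟩).symm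
  have hgen : gen hs = (GG g dom mu Δ (TL D) {x | x ∈ gN}).map c.toMonoidHom := by
    rw [GG, HH_closure, MonoidHom.map_closure, gen]
    congr 1
    ext p
    have := hall (tab p)
    rw [hhs, List.mem_map_of_injective tab_inj] at this
    simp only [tab_inj.eq_iff] at this
    exact this
  refine ⟨hs, hhs, fun ns hns => ?_⟩
  rw [hgen, ← Subgroup.map_equiv_normalizer_eq] at hns
  let R : Perm (Fin (ysL D).length) → Perm (Fin D.1) → Prop := fun ω τ =>
    ∀ z, c.symm ω * RR g dom mu Δ (TL D) (.inl (.inl z)) * (c.symm ω)⁻¹ =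
      RR g dom mu Δ (TL D) (.inl (.inl (τ z)))
  have hex : ∀ ω ∈ ns, ∃ τ, R ω τ ∧ τ ∈ Subgroup.normalizer (G : Set (Perm (Fin D.1))) ∧
      ∀ z, τ z ∈ Δ ↔ z ∈ Δ := by
    intro ω hω
    have h0 : ω ∈ gen ns := Subgroup.subset_closure hω
    rw [hns] at h0
    obtain ⟨ω', h1, rfl⟩ := h0
    simpa [R] using sound Δ hg hN hT h1
  choose! τ hτ1 hτ2 hτ3 using hex
  refine ⟨ns.map τ, ?_, ?_, ?_, ?_⟩
  · rw [List.map_map, List.map_map]
    refine List.map_congr_left fun ω hω => ?_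
    simp only [Function.comp, readL, range_map_eq, tab]
    congr 1
    funext x
    have h1 := e1 (.inl (.inl x, x, 0))
    have h2 : lab (.inl (.inl x, x, 0) : Pt (Nd (Fin D.1) (Fin D.2.2.2.1.length)
      (Fin D.2.2.2.2.length)) _ _ (32 * TL D)) = (0, (0, 0, 0, x.val), x.val, 0) := rfl
    rw [h2] at h1
    have h3 : ω (e (.inl (.inl x, x, 0))) = e (c.symm ω (.inl (.inl x, x, 0))) := by simp [c]
    change ((ysL D).getD (app (tab ω) (idx _ (ysL D))) _).2.1.2.2.2 = _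
    rw [h1, app_tab, h3, e2]
    have h4 : RR g dom mu Δ (TL D) (.inl (.inl (τ ω x))) (c.symm ω (.inl (.inl x, x, 0))) ≠
        c.symm ω (.inl (.inl x, x, 0)) := by
      rw [← hτ1 ω hω x]
      simp [row_cell, incR]
    generalize c.symm ω (.inl (.inl x, x, 0)) = y at h4
    rcases y with ⟨x', z, ε⟩ | ⟨x', z, j⟩ | ⟨e', j, ε⟩
    · simp only [row_cell, incR, ne_eq, Sum.inl.injEq, Prod.mk.injEq, true_and, add_eq_left,
        ite_eq_right_iff, one_ne_zero, imp_false, not_not] at h4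
      rw [h4]; rfl
    · simp [row_pad] at h4
    · simp only [row_priv, ne_eq, Sum.inr.injEq, Prod.mk.injEq, true_and, add_eq_left,
        ite_eq_right_iff, one_ne_zero, imp_false, not_not] at h4
      rw [h4.1]; rfl
  · rw [gen, Subgroup.closure_le]
    intro t ht
    obtain ⟨ω, hω, rfl⟩ := List.mem_map.1 ht
    exact hτ2 ω hω
  · intro t ht
    refine closure_sub (W := {t : Perm (Fin D.1) | ∀ z, t z ∈ Δ ↔ z ∈ Δ}) (fun _ => Iff.rfl)
      (fun a ha b hb z => (ha _).trans (hb z)) (fun t ht => ?_) ht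
    obtain ⟨ω, hω, rfl⟩ := List.mem_map.1 ht
    exact hτ3 ω hω
  · intro γ hγ hΔ
    obtain ⟨ω, h1, h2⟩ := complete (T := TL D) Δ hg hN hγ hΔ
    have h3 : c ω ∈ gen ns := hns ▸ ⟨ω, h1, rfl⟩
    obtain ⟨t, ht, h4⟩ := closure_sub (W := {ω | ∃ t ∈ gen (ns.map τ), R ω t})
      ⟨1, one_mem _, fun z => by simp⟩
      (by
        rintro a ⟨s, hs, ha⟩ b ⟨t, ht, hb⟩
        refine ⟨s * t, mul_mem hs ht, fun z => ?_⟩
        rw [Perm.mul_apply, ← ha, ← hb, map_mul]; group)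
      (fun ω hω => ⟨τ ω, Subgroup.subset_closure (List.mem_map.2 ⟨ω, hω, rfl⟩), hτ1 ω hω⟩) h3
    have : γ = t := by
      ext z
      have h5 := h4 z
      rw [MulEquiv.symm_apply_apply, h2 z] at h5
      have := row_inj (incR g dom mu) (by omega) h5
      simpa [Fin.val_inj] using this
    rw [this]; exact ht

end

open Pointwise in
theorem correct (d : ℕ) {n : ℕ} (s : ℕ) (gens : List (Perm (Fin n))) (Γ Δ : List (Fin n))
    (h : InClass d s (gen gens) {x | x ∈ Γ}) :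
    ∃ (m : ℕ) (hs : List (Perm (Fin m))), queryL d (inp s gens Γ Δ) = (m, hs.map tab) ∧
      ∀ ns : List (Perm (Fin m)), gen ns = Subgroup.normalizer (gen hs : Set (Perm (Fin m))) →
        ∃ out : List (Perm (Fin n)), answerL d (inp s gens Γ Δ, ns.map tab) = out.map tab ∧
          gen out = gen gens ⊓ MulAction.stabilizer (Perm (Fin n)) {x | x ∈ Δ} := by
  obtain ⟨h1, h2, h3⟩ := h
  have hN : gen (stabA gens Γ) = gen gens ⊓ fixingSubgroup (Perm (Fin n)) {x | x ∈ Γ} := by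
    ext p
    rw [mem_gen_stabA, Subgroup.mem_inf, mem_fixingSubgroup_iff]; rfl
  rw [← hN] at h3
  have hD : datOf d (inp s gens Γ Δ) = (n, Δ.map Fin.val, (stabA gens Γ).map tab,
      (liftsA d gens Γ).map tab, usL n s ((stabA gens Γ).map tab)) := by
    simp only [datOf, inp, stabL_tab, liftsL_tab]
  obtain ⟨dom, mu, b1, b2, b3, b4⟩ := exists_local (stabA gens Γ) h3
  obtain ⟨a0, a1, a2, a3⟩ := lifts_good h1 h2 (mem_gen_stabA gens Γ) _ (fun _ => rfl)
  let ι : Fin ((liftsA d gens Γ).map tab).length ≃ Fin (liftsA d gens Γ).length :=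
    finCongr (List.length_map _)
  have hg : Good (gen (stabA gens Γ)) (gen gens) (fun i => (liftsA d gens Γ)[(ι i).1]) dom mu :=
    { le := fun p hp => ((mem_gen_stabA _ _ _).1 hp).1
      norm := fun γ hγ m hm => by
        rw [mem_gen_stabA] at hm ⊢
        refine ⟨mul_mem (mul_mem hγ hm.1) (inv_mem hγ), fun x hx => ?_⟩
        rw [Perm.mul_apply, Perm.mul_apply, hm.2 _ (h1 _ (inv_mem hγ) x hx), ais]
      gmem := fun i => a0 _
      a1 := fun i j h => ι.injective (a1 _ _ h)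
      a2 := fun γ hγ i => by
        obtain ⟨j, hj⟩ := a2 γ hγ (ι i)
        exact ⟨ι.symm j, hj⟩
      a3 := a3.trans (Subgroup.closure_mono (by
        rintro _ ⟨i, m, hm, rfl⟩
        exact ⟨ι.symm i, m, hm, rfl⟩))
      b1 := b1
      b2 := b2
      b3 := b3 }
  obtain ⟨hs, e1, e2⟩ := core (D := (n, Δ.map Fin.val, (stabA gens Γ).map tab,
      (liftsA d gens Γ).map tab, usL n s ((stabA gens Γ).map tab))) (Δ := {x | x ∈ Δ})
    ⟨fun i => by
        rw [List.getD_eq_getElem _ _ i.2]; exact List.getElem_map _,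
      b4, fun z => by simp [Fin.val_inj]⟩ hg rfl rfl
  refine ⟨_, hs, by rw [queryL, hD, e1], fun ns hns => ?_⟩
  obtain ⟨τs, f1, f2, f3, f4⟩ := e2 ns hns
  obtain ⟨out, o1, o2⟩ := interL_spec τs gens f2
  refine ⟨out, ?_, ?_⟩
  · rw [answerL, hD]
    simp only at f1 ⊢
    rw [f1]; exact o1
  · rw [o2]
    have st : ∀ p : Perm (Fin n), p ∈ MulAction.stabilizer (Perm (Fin n)) {x | x ∈ Δ} ↔
        ∀ z, p z ∈ {x | x ∈ Δ} ↔ z ∈ {x | x ∈ Δ} := fun p => MulAction.mem_stabilizer_set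
    ext p
    rw [Subgroup.mem_inf, Subgroup.mem_inf, st]
    exact ⟨fun h => ⟨h.2, f3 p h.1⟩, fun h => ⟨f4 p h.1 h.2, h.1⟩⟩

theorem mark_eq (u : List Bool) : mark u = delim u := (Comp.delim_eq u).symm

theorem codeL_eq {α : Type} (c : α → List Bool) : codeL c = encList c := by
  funext l
  induction l with
  | nil => rfl
  | cons a l ih => rw [encList, ← ih, codeL, codeL, List.flatMap_cons, mark_eq]

theorem codeP_eq {α β : Type} [Enc α] [Enc β] :
    codeP (enc : α → List Bool) (enc : β → List Bool) = enc := by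
  funext p; rw [codeP, mark_eq]; rfl

theorem codeT_eq : codeT = enc := by rw [codeT, codeL_eq, codeL_eq]; rfl

theorem codeI_eq : codeI = enc := by
  have h1 : codeL codeN = enc := by rw [codeL_eq]; rfl
  have h2 : codeN = enc := rfl
  rw [codeI, codeT_eq, h1, h2, codeP_eq, codeP_eq, codeP_eq, codeP_eq]

theorem query_tm (d : ℕ) :
    Nonempty (Turing.TM2ComputableInPolyTime codeI (codeP codeN codeT) (queryL d)) := by
  have h2 : codeN = enc := rfl
  rw [codeI_eq, codeT_eq, h2, codeP_eq]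
  exact Comp.toTM2 (pt_queryL d)

theorem answer_tm (d : ℕ) :
    Nonempty (Turing.TM2ComputableInPolyTime (codeP codeI codeT) codeT (answerL d)) := by
  rw [codeI_eq, codeT_eq, codeP_eq]
  exact Comp.toTM2 (pt_answerL d)

end Pool.Agent.Lib.MP_e519cf_lc
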